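import Pool.Agent.N639.FG.Fin4

/-!
# Runs of one digit and repeated words, in terms of single digits

The words of the library are translated to single digits; the laws of the longest run and of the
longest repeated word are put in the form which is used by the hand-ins of helper864.
-/

set_option autoImplicit false

namespace Pool.Agent.U864.DL

open Finset Real MeasureTheory Filter Topology
open Pool.Agent.Y933.KD Pool.Agent.N639.FS Pool.Agent.N639.FG

/-- the digit in base `b` of `x` which follows the first `n` digits after the point -/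
noncomputable def digit (b n : ℕ) (x : ℝ) : ℕ := ⌊(b : ℝ) * Int.fract ((b : ℝ) ^ n * x)⌋₊

lemma digit_eq (b n : ℕ) (x : ℝ) : digit b n x = wd b 1 n x := by
  unfold digit wd
  rw [pow_one]

lemma fract_split (b w n : ℕ) (x : ℝ) :
    Int.fract ((b : ℝ) ^ w * Int.fract ((b : ℝ) ^ n * x)) = Int.fract ((b : ℝ) ^ (n + w) * x) := by
  have h : (b : ℝ) ^ w * Int.fract ((b : ℝ) ^ n * x) =
      (b : ℝ) ^ (n + w) * x - (((b : ℤ) ^ w * ⌊(b : ℝ) ^ n * x⌋ : ℤ) : ℝ) := by
    rw [Int.fract]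
    push_cast
    rw [pow_add]
    ring
  rw [h, Int.fract_sub_intCast]

lemma wd_split {b : ℕ} (w k n : ℕ) (x : ℝ) :
    wd b (w + k) n x = b ^ k * wd b w n x + wd b k (n + w) x := by
  unfold wd
  set t : ℝ := Int.fract ((b : ℝ) ^ n * x) with ht
  have ht0 : 0 ≤ t := Int.fract_nonneg _
  have h0 : (0 : ℝ) ≤ (b : ℝ) ^ w * t := by positivity
  have h1 : (b : ℝ) ^ w * t = (⌊(b : ℝ) ^ w * t⌋₊ : ℝ) + Int.fract ((b : ℝ) ^ (n + w) * x) := by
    rw [← fract_split, ← ht, natCast_floor_eq_intCast_floor h0]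
    exact (Int.floor_add_fract _).symm
  have h2 : (b : ℝ) ^ (w + k) * t = (((b ^ k * ⌊(b : ℝ) ^ w * t⌋₊ : ℕ)) : ℝ) +
      (b : ℝ) ^ k * Int.fract ((b : ℝ) ^ (n + w) * x) := by
    push_cast
    rw [pow_add, mul_comm ((b : ℝ) ^ w) ((b : ℝ) ^ k), mul_assoc, ← mul_add, ← h1]
  rw [h2]
  have h3 : (0 : ℝ) ≤ (b : ℝ) ^ k * Int.fract ((b : ℝ) ^ (n + w) * x) :=
    mul_nonneg (by positivity) (Int.fract_nonneg _)
  rw [add_comm, Nat.floor_add_natCast h3, add_comm]

lemma wd_zero' (b n : ℕ) (x : ℝ) : wd b 0 n x = 0 := by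
  unfold wd
  rw [pow_zero, one_mul, Nat.floor_eq_zero]
  exact Int.fract_lt_one _

/-- two words are equal if and only if all their digits are equal -/
lemma wd_eq_wd_iff {b : ℕ} (hb : 1 ≤ b) (w i j : ℕ) (x : ℝ) :
    wd b w i x = wd b w j x ↔ ∀ k < w, digit b (i + k) x = digit b (j + k) x := by
  induction w with
  | zero => simp [wd_zero']
  | succ w ih =>
    rw [wd_split w 1 i x, wd_split w 1 j x, ← digit_eq, ← digit_eq, pow_one]
    have h1 : digit b (i + w) x < b := by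
      rw [digit_eq]; simpa using wd_lt hb 1 (i + w) x
    have h2 : digit b (j + w) x < b := by
      rw [digit_eq]; simpa using wd_lt hb 1 (j + w) x
    constructor
    · intro h
      have h3 : digit b (i + w) x = digit b (j + w) x := by
        have := congrArg (· % b) h
        simpa [Nat.mul_add_mod, Nat.mod_eq_of_lt h1, Nat.mod_eq_of_lt h2] using this
      have h4 : wd b w i x = wd b w j x := by
        rw [h3] at h
        exact Nat.eq_of_mul_eq_mul_left (by omega : 0 < b) (Nat.add_right_cancel h)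
      intro k hk
      rcases Nat.lt_succ_iff_lt_or_eq.1 hk with h5 | h5
      · exact ih.1 h4 k h5
      · rw [h5]; exact h3
    · intro h
      rw [ih.2 fun k hk => h k (by omega), h w (by omega)]

/-- a word is `c c … c` if and only if all its digits are `c` -/
lemma wd_eq_rp_iff {b c : ℕ} (hc : c < b) (w n : ℕ) (x : ℝ) :
    wd b w n x = rp b w c ↔ ∀ i < w, digit b (n + i) x = c := by
  have hb : 1 ≤ b := by omega
  induction w with
  | zero => simp [wd_zero', rp]
  | succ w ih =>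
    have hr : rp b (w + 1) c = b * rp b w c + c := by
      unfold rp
      rw [sum_range_succ', mul_sum, pow_zero, mul_one]
      congr 1
      refine sum_congr rfl fun i _ => ?_
      rw [pow_succ]; ring
    rw [wd_split w 1 n x, ← digit_eq, pow_one, hr]
    have h1 : digit b (n + w) x < b := by
      rw [digit_eq]; simpa using wd_lt hb 1 (n + w) x
    constructor
    · intro h
      have h3 : digit b (n + w) x = c := by
        have := congrArg (· % b) h
        simpa [Nat.mul_add_mod, Nat.mod_eq_of_lt h1, Nat.mod_eq_of_lt hc] using this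
      have h4 : wd b w n x = rp b w c := by
        rw [h3] at h
        exact Nat.eq_of_mul_eq_mul_left (by omega : 0 < b) (Nat.add_right_cancel h)
      intro k hk
      rcases Nat.lt_succ_iff_lt_or_eq.1 hk with h5 | h5
      · exact ih.1 h4 k h5
      · rw [h5]; exact h3
    · intro h
      rw [ih.2 fun k hk => h k (by omega), h w (by omega)]

/-- at least `w` consecutive digits `c` follow the first `n` digits after the point of `x` -/
def Run (b w n c : ℕ) (x : ℝ) : Prop := ∀ i < w, digit b (n + i) x = c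

/-- the law of the longest runs in a window -/
def RunLaw (b s N₀ : ℕ) (L ε : ℝ) (x : ℝ) : Prop :=
  ∀ c N : ℕ, c < b → N₀ ≤ N → (N : ℝ) ≤ L →
    (∀ w : ℕ, (w : ℝ) ≤ (1 - ε) * logb b N → ∃ n, s ≤ n ∧ n < s + N ∧ Run b w n c x) ∧
    (∀ w n : ℕ, s ≤ n → n < s + N → Run b w n c x → (w : ℝ) ≤ (1 + ε) * logb b N)

/-- some word of `w` digits follows both the first `i` and the first `j` digits -/
def Repeated (b w s N : ℕ) (x : ℝ) : Prop :=
  ∃ i j : ℕ, s ≤ i ∧ i < j ∧ j < s + N ∧ ∀ k < w, digit b (i + k) x = digit b (j + k) x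

/-- the law of the longest repeated word in a window -/
def RepLaw (b s N₀ : ℕ) (L ε : ℝ) (x : ℝ) : Prop :=
  ∀ N : ℕ, N₀ ≤ N → (N : ℝ) ≤ L →
    (∀ w : ℕ, (w : ℝ) ≤ (2 - ε) * logb b N → Repeated b w s N x) ∧
    (∀ w : ℕ, Repeated b w s N x → (w : ℝ) ≤ (2 + ε) * logb b N)

lemma logb_mul_log {b : ℕ} (hb : 2 ≤ b) (N : ℕ) (a : ℝ) :
    a * logb b N * log b = a * log N := by
  have h : log (b : ℝ) ≠ 0 := (Real.log_pos (by exact_mod_cast hb)).ne'
  rw [mul_assoc, ← Real.log_div_log, div_mul_cancel₀ _ h]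

lemma le_logb_iff {b : ℕ} (hb : 2 ≤ b) (N : ℕ) (a : ℝ) (w : ℕ) :
    (w : ℝ) ≤ a * logb b N ↔ w * log b ≤ a * log N := by
  have h : 0 < log (b : ℝ) := Real.log_pos (by exact_mod_cast hb)
  rw [← logb_mul_log hb N a]
  exact (mul_le_mul_iff_left₀ h).symm

/-- the law of the longest runs for families of measures -/
theorem run_law {b : ℕ} {Λ : ℕ → ℝ} {S : ℕ → Set (Measure ℝ)} (hb2 : 2 ≤ b)
    (hT : TG b (fun M => 2 * Λ M) S) {ε : ℝ} (hε : 0 < ε) :
    ∃ N0 : ℕ, ∀ᶠ M : ℕ in atTop, ∀ P ∈ S M, ∀ s : ℕ, (s : ℝ) ≤ Λ M →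
      ∃ V : Set ℝ, MeasurableSet V ∧ P.real V ≤ ε ∧ ∀ x ∉ V, RunLaw b s N0 (Λ M) ε x := by
  obtain ⟨N0, h0⟩ := cg5w hb2 hT hε
  refine ⟨N0, ?_⟩
  filter_upwards [h0] with M hM P hP s hs
  obtain ⟨V, hV1, hV2, hV3⟩ := hM P hP s hs
  refine ⟨V, hV1, hV2, fun x hx c N hc hN hNL => ⟨fun w hw => ?_, fun w n h1 h2 h3 => ?_⟩⟩
  · obtain ⟨n, hn, hn2⟩ := (hV3 x hx N hN hNL w c hc).2 ((le_logb_iff hb2 N _ w).1 hw)
    exact ⟨s + n, by omega, by omega, (wd_eq_rp_iff hc w (s + n) x).1 hn2⟩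
  · by_contra hcon
    rw [le_logb_iff hb2, not_le] at hcon
    have h4 := (hV3 x hx N hN hNL w c hc).1 hcon.le (n - s) (by omega)
    rw [show s + (n - s) = n by omega] at h4
    exact h4 ((wd_eq_rp_iff hc w n x).2 h3)

/-- the law of the longest repeated word for families of measures -/
theorem rep_law {b : ℕ} {Λ : ℕ → ℝ} {S : ℕ → Set (Measure ℝ)} (hb2 : 2 ≤ b)
    (hT : TG b (fun M => 2 * Λ M) S) {ε : ℝ} (hε : 0 < ε) :
    ∃ N0 : ℕ, ∀ᶠ M : ℕ in atTop, ∀ P ∈ S M, ∀ s : ℕ, (s : ℝ) ≤ Λ M →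
      ∃ V : Set ℝ, MeasurableSet V ∧ P.real V ≤ ε ∧ ∀ x ∉ V, RepLaw b s N0 (Λ M) ε x := by
  have hb1 : 1 ≤ b := by omega
  obtain ⟨N0, h0⟩ := cg2w hb2 hT hε
  refine ⟨N0, ?_⟩
  filter_upwards [h0] with M hM P hP s hs
  obtain ⟨V, hV1, hV2, hV3⟩ := hM P hP s hs
  have key : ∀ (w N : ℕ) (x : ℝ), Rep b w N (Tb b s x) ↔ Repeated b w s N x := by
    intro w N x
    constructor
    · rintro ⟨i, hi, j, hj, hij, h⟩
      rw [← wd_add, ← wd_add] at h
      exact ⟨s + i, s + j, by omega, by omega, by omega, (wd_eq_wd_iff hb1 w _ _ x).1 h⟩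
    · rintro ⟨i, j, hi, hij, hj, h⟩
      refine ⟨i - s, by omega, j - s, by omega, by omega, ?_⟩
      rw [← wd_add, ← wd_add, show s + (i - s) = i by omega, show s + (j - s) = j by omega]
      exact (wd_eq_wd_iff hb1 w i j x).2 h
  refine ⟨V, hV1, hV2, fun x hx N hN hNL => ⟨fun w hw => ?_, fun w h3 => ?_⟩⟩
  · exact (key w N x).1 ((hV3 x hx N hN hNL).2 w ((le_logb_iff hb2 N _ w).1 hw))
  · by_contra hcon
    rw [le_logb_iff hb2, not_le] at hcon
    exact (hV3 x hx N hN hNL).1 w hcon.le ((key w N x).2 h3)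

/-- the box of dimension one -/
lemma card_box_one (M : ℕ) (P : (Fin 1 → ℕ) → Prop) (Q : ℕ → Prop) [DecidablePred P]
    [DecidablePred Q] (h : ∀ m, P m ↔ Q (m 0)) :
    ((box 1 M).filter P).card = ((Icc 1 M).filter Q).card := by
  refine card_bij (fun m _ => m 0) ?_ ?_ ?_
  · intro m hm
    rw [mem_filter] at hm ⊢
    exact ⟨(Fintype.mem_piFinset.1 hm.1) 0, (h m).1 hm.2⟩
  · intro m _ m' _ h
    funext j
    rw [Subsingleton.elim j 0]
    exact h
  · intro n hn
    rw [mem_filter] at hn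
    refine ⟨fun _ => n, ?_, rfl⟩
    rw [mem_filter]
    exact ⟨Fintype.mem_piFinset.2 fun _ => hn.1, (h _).2 hn.2⟩

end Pool.Agent.U864.DL
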