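import Pool.Agent.U864.DL.Basic

/-!
# The longest word of a language in the digits of the members of a family

`W w` is a set of words of length `w` (in base `b`, as numbers below `b ^ w`), whose proportion is
`exp (-(h + o(1)) w)`, `h > 0`. If the members of a family pass all tests with boundedly many words
(`TG`), then for most of them the longest word of the language which starts at one of the first `N`
places has length `(1 + o(1)) log N / h`.
-/

set_option autoImplicit false

namespace Pool.Agent.U864.DL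

open Finset Real MeasureTheory Filter Topology
open Pool.Agent.Y933.KD Pool.Agent.N639.FS Pool.Agent.N639.FG

/-- the indicator of the event that the word at the place `n` is in `W` -/
noncomputable def indW (b w n : ℕ) (W : Finset ℕ) (x : ℝ) : ℝ := if wd b w n x ∈ W then 1 else 0

lemma indW_eq (b w n : ℕ) (W : Finset ℕ) (x : ℝ) : indW b w n W x = ∑ c ∈ W, cnd b w n c x := by
  unfold indW cnd
  rw [Finset.sum_ite_eq]

lemma measurable_indW (b w n : ℕ) (W : Finset ℕ) : Measurable (indW b w n W) := by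
  have : indW b w n W = (fun m : ℕ => if m ∈ W then (1 : ℝ) else 0) ∘ wd b w n := rfl
  rw [this]
  exact (measurable_of_countable _).comp (measurable_wd b w n)

lemma indW_nonneg (b w n : ℕ) (W : Finset ℕ) (x : ℝ) : 0 ≤ indW b w n W x := by
  unfold indW
  split_ifs <;> simp

lemma indW_le (b w n : ℕ) (W : Finset ℕ) (x : ℝ) : indW b w n W x ≤ 1 := by
  unfold indW
  split_ifs <;> simp

lemma int_indW {b : ℕ} (hb : 1 ≤ b) (w n : ℕ) {W : Finset ℕ} (hW : W ⊆ range (b ^ w)) :
    ∫ x, indW b w n W x ∂Leb = W.card / (b : ℝ) ^ w := by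
  have h := int_word hb w n (fun m : ℕ => if m ∈ W then (1 : ℝ) else 0)
  unfold indW
  rw [h]
  congr 1
  rw [← Finset.sum_filter, Finset.sum_const, nsmul_eq_mul, mul_one]
  congr 2
  ext c
  rw [mem_filter]
  exact ⟨fun h => h.2, fun h => ⟨hW h, h⟩⟩

lemma int_indW_mul {b : ℕ} (hb : 1 ≤ b) (w : ℕ) {n m : ℕ} (hnm : n + w ≤ m ∨ m + w ≤ n)
    (hne : n ≠ m) {W : Finset ℕ} (hW : W ⊆ range (b ^ w)) :
    ∫ x, indW b w n W x * indW b w m W x ∂Leb = (W.card / (b : ℝ) ^ w) ^ 2 := by
  have h1 : ∀ x, indW b w n W x * indW b w m W x =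
      ∑ c ∈ W, ∑ c' ∈ W, cnd b w n c x * cnd b w m c' x := by
    intro x
    rw [indW_eq, indW_eq, sum_mul_sum]
  simp only [h1]
  have hint : ∀ c c' : ℕ, Integrable (fun x => cnd b w n c x * cnd b w m c' x) Leb := by
    intro c c'
    refine Integrable.of_bound (C := 1)
      ((measurable_cnd b w n c).mul (measurable_cnd b w m c')).aestronglyMeasurable
      (Eventually.of_forall fun x => ?_)
    rw [Real.norm_eq_abs, abs_mul]
    exact mul_le_one₀ (abs_cnd_le _ _ _ _ _) (abs_nonneg _) (abs_cnd_le _ _ _ _ _)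
  rw [integral_finsetSum _ fun c _ => integrable_finsetSum _ fun c' _ => hint c c']
  have h2 : ∀ c ∈ W, ∫ x, ∑ c' ∈ W, cnd b w n c x * cnd b w m c' x ∂Leb =
      W.card * (1 / (b : ℝ) ^ w) ^ 2 := by
    intro c hc
    rw [integral_finsetSum _ fun c' _ => hint c c']
    have h3 : ∀ c' ∈ W, ∫ x, cnd b w n c x * cnd b w m c' x ∂Leb = (1 / (b : ℝ) ^ w) ^ 2 := by
      intro c' hc'
      have h6 := l1 b w hb {n, m} (by
        intro a ha e he hae
        rw [mem_insert, mem_singleton] at ha he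
        omega) (fun k => if k = n then c else c') (fun k => by
        split_ifs
        · exact mem_range.1 (hW hc)
        · exact mem_range.1 (hW hc'))
      rw [card_pair hne] at h6
      have h7 : ∀ x, ∏ k ∈ ({n, m} : Finset ℕ), cnd b w k (if k = n then c else c') x =
          cnd b w n c x * cnd b w m c' x := by
        intro x
        rw [prod_pair hne, if_pos rfl, if_neg hne.symm]
      simp only [h7] at h6
      exact h6
    rw [sum_congr rfl h3, sum_const, nsmul_eq_mul]
  rw [sum_congr rfl h2, sum_const, nsmul_eq_mul]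
  ring

/-- the second moment for separated places -/
lemma int_cntS_sq' {b : ℕ} (hb : 1 ≤ b) {w : ℕ} (N : ℕ) (g : ℕ → Prop) [DecidablePred g]
    (hg : ∀ n m, g n → g m → n < m → n + w ≤ m) {W : Finset ℕ} (hW : W ⊆ range (b ^ w)) :
    ∫ x, cntS b w N g (· ∈ W) x ^ 2 ∂Leb ≤
      ((range N).filter g).card * (W.card / (b : ℝ) ^ w) +
        (((range N).filter g).card * (W.card / (b : ℝ) ^ w)) ^ 2 := by
  have h1 : ∀ x, cntS b w N g (· ∈ W) x ^ 2 = ∑ n ∈ (range N).filter g, ∑ m ∈ (range N).filter g,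
      indW b w n W x * indW b w m W x := by
    intro x
    have h2 : cntS b w N g (· ∈ W) x = ∑ n ∈ (range N).filter g, indW b w n W x := by
      unfold cntS indW
      rw [sum_filter]
      refine sum_congr rfl fun n _ => ?_
      by_cases hgn : g n <;> simp [hgn]
    rw [h2, sq, sum_mul_sum]
  simp only [h1]
  have hint : ∀ n m, Integrable (fun x => indW b w n W x * indW b w m W x) Leb := by
    intro n m
    refine Integrable.of_bound (C := 1)
      ((measurable_indW b w n W).mul (measurable_indW b w m W)).aestronglyMeasurable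
      (Eventually.of_forall fun x => ?_)
    rw [Real.norm_eq_abs, abs_of_nonneg (mul_nonneg (indW_nonneg _ _ _ _ _) (indW_nonneg _ _ _ _ _))]
    exact mul_le_one₀ (indW_le _ _ _ _ _) (indW_nonneg _ _ _ _ _) (indW_le _ _ _ _ _)
  rw [integral_finsetSum _ fun n _ => integrable_finsetSum _ fun m _ => hint n m]
  set p : ℝ := W.card / (b : ℝ) ^ w with hp
  have hp0 : 0 ≤ p := by positivity
  have h3 : ∀ n ∈ (range N).filter g, ∫ x, ∑ m ∈ (range N).filter g,
      indW b w n W x * indW b w m W x ∂Leb ≤ p + ((range N).filter g).card * p ^ 2 := by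
    intro n hn
    rw [integral_finsetSum _ fun m _ => hint n m]
    have h4 : ∀ m ∈ (range N).filter g, ∫ x, indW b w n W x * indW b w m W x ∂Leb ≤
        (if m = n then p else 0) + p ^ 2 := by
      intro m hm
      by_cases hmn : m = n
      · subst hmn
        rw [if_pos rfl]
        have h5 : ∀ x, indW b w m W x * indW b w m W x = indW b w m W x := by
          intro x
          unfold indW
          split_ifs <;> simp
        simp only [h5]
        rw [int_indW hb w m hW]
        have : 0 ≤ p ^ 2 := by positivity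
        linarith
      · rw [if_neg hmn, zero_add]
        have hgn := (mem_filter.1 hn).2
        have hgm := (mem_filter.1 hm).2
        refine (int_indW_mul hb w ?_ (Ne.symm hmn) hW).le
        rcases lt_or_gt_of_ne hmn with h | h
        · exact Or.inr (hg m n hgm hgn h)
        · exact Or.inl (hg n m hgn hgm h)
    refine (sum_le_sum h4).trans ?_
    rw [sum_add_distrib, sum_ite_eq' , if_pos hn, sum_const, nsmul_eq_mul]
  refine (sum_le_sum h3).trans ?_
  rw [sum_const, nsmul_eq_mul]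
  have : (((range N).filter g).card : ℝ) * (p + ((range N).filter g).card * p ^ 2) =
      ((range N).filter g).card * p + (((range N).filter g).card * p) ^ 2 := by ring
  rw [this]

/-- the tests with `k` words -/
def Ts (k b w N : ℕ) (τ : ℝ) (P : Measure ℝ) : Prop :=
  ∀ F : (Fin k → ℕ) → (Fin k → ℕ) → ℝ, (∀ n c, |F n c| ≤ 1) →
    |∫ x, SF b w N k F x ∂P - ∫ x, SF b w N k F x ∂Leb| ≤ τ

lemma up_bd {b w N : ℕ} (hb : 1 ≤ b) {W : Finset ℕ} (hW : W ⊆ range (b ^ w)) {τ : ℝ}
    (P : Measure ℝ) [IsProbabilityMeasure P] (h1 : Ts 1 b w N τ P) :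
    P.real {x | 1 ≤ cntS b w N (fun _ => True) (· ∈ W) x} ≤ N * (W.card / (b : ℝ) ^ w) + τ := by
  classical
  refine (prob_one_le P (measurable_cntS _ _ _ _ _) (cntS_le _ _ _ _ _)
    (cntS_nonneg _ _ _ _ _)).trans ?_
  have e1 : |∫ x, cntS b w N (fun _ => True) (· ∈ W) x ∂P -
      ∫ x, cntS b w N (fun _ => True) (· ∈ W) x ∂Leb| ≤ τ := by
    have key := h1 (fun n c => if (fun _ : ℕ => True) (n 0) ∧ c 0 ∈ W then 1 else 0) (fun n c => by
      split_ifs <;> simp)
    simp only [cntS_eq]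
    exact key
  rw [int_cntS hb] at e1
  have h2 : ((range N).filter fun _ => True).card = N := by
    rw [Finset.filter_true, card_range]
  have h3 : ((range (b ^ w)).filter (· ∈ W)).card = W.card := by
    congr 1
    ext c
    rw [mem_filter]
    exact ⟨fun h => h.2, fun h => ⟨hW h, h⟩⟩
  rw [h2, h3] at e1
  have := (abs_le.1 e1).2
  linarith

lemma card_mult {w : ℕ} (hw : 1 ≤ w) (N : ℕ) [DecidablePred fun n => w ∣ n ∧ n < w * (N / w)] :
    ((range N).filter fun n => w ∣ n ∧ n < w * (N / w)).card = N / w := by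
  have h1 : ((range N).filter fun n => w ∣ n ∧ n < w * (N / w)) =
      (range (N / w)).image (fun a => w * a) := by
    ext n
    simp only [mem_filter, mem_range, mem_image]
    constructor
    · rintro ⟨_, ⟨a, rfl⟩, h2⟩
      exact ⟨a, Nat.lt_of_mul_lt_mul_left h2, rfl⟩
    · rintro ⟨a, ha, rfl⟩
      have h2 : w * a < w * (N / w) := Nat.mul_lt_mul_of_pos_left ha (by omega)
      have h3 : w * (N / w) ≤ N := Nat.mul_div_le N w
      exact ⟨by omega, ⟨a, rfl⟩, h2⟩
  rw [h1, card_image_of_injective _ (fun a c h => Nat.eq_of_mul_eq_mul_left (by omega) h),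
    card_range]

lemma low_bd {b w N : ℕ} (hb : 1 ≤ b) (hw : 1 ≤ w) {W : Finset ℕ} (hW : W ⊆ range (b ^ w)) {τ : ℝ}
    (hτ0 : 0 ≤ τ) (hτ1 : τ ≤ 1) (P : Measure ℝ) [IsProbabilityMeasure P] (h1 : Ts 1 b w N τ P)
    (h2 : Ts 2 b w N τ P) (hμ1 : 1 ≤ ((N / w : ℕ) : ℝ) * (W.card / (b : ℝ) ^ w)) :
    P.real {x | cntS b w N (fun _ => True) (· ∈ W) x = 0} ≤
      4 / (((N / w : ℕ) : ℝ) * (W.card / (b : ℝ) ^ w)) := by
  classical
  set g : ℕ → Prop := fun n => w ∣ n ∧ n < w * (N / w) with hg
  set μ : ℝ := ((N / w : ℕ) : ℝ) * (W.card / (b : ℝ) ^ w) with hμ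
  have hμ0 : 0 < μ := by linarith
  have hsep : ∀ n m, g n → g m → n < m → n + w ≤ m := by
    rintro n m ⟨⟨a, rfl⟩, _⟩ ⟨⟨c, rfl⟩, _⟩ h
    have h1 : a < c := Nat.lt_of_mul_lt_mul_left h
    calc w * a + w = w * (a + 1) := by ring
      _ ≤ w * c := Nat.mul_le_mul_left _ h1
  have hcard : ((range N).filter g).card = N / w := card_mult hw N
  have h3 : ((range (b ^ w)).filter (· ∈ W)).card = W.card := by
    congr 1
    ext c
    rw [mem_filter]
    exact ⟨fun h => h.2, fun h => ⟨hW h, h⟩⟩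
  have hLm : ∫ x, cntS b w N g (· ∈ W) x ∂Leb = μ := by
    rw [int_cntS hb, hcard, h3]
  have hL2 : ∫ x, cntS b w N g (· ∈ W) x ^ 2 ∂Leb ≤ μ + μ ^ 2 := by
    have := int_cntS_sq' hb N g hsep hW
    rw [hcard] at this
    exact this
  have e1 : |∫ x, cntS b w N g (· ∈ W) x ∂P - ∫ x, cntS b w N g (· ∈ W) x ∂Leb| ≤ τ := by
    have key := h1 (fun n c => if g (n 0) ∧ c 0 ∈ W then 1 else 0) (fun n c => by
      split_ifs <;> simp)
    simp only [cntS_eq]
    exact key
  have e2 : |∫ x, cntS b w N g (· ∈ W) x ^ 2 ∂P - ∫ x, cntS b w N g (· ∈ W) x ^ 2 ∂Leb| ≤ τ := by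
    have key := h2 (fun n c => (if g (n 0) ∧ c 0 ∈ W then 1 else 0) *
        (if g (n 1) ∧ c 1 ∈ W then 1 else 0)) (fun n c => by
      split_ifs <;> simp)
    simp only [cntS_sq_eq]
    exact key
  have hmono : P.real {x | cntS b w N (fun _ => True) (· ∈ W) x = 0} ≤
      P.real {x | cntS b w N g (· ∈ W) x = 0} := by
    refine measureReal_mono fun x hx => ?_
    simp only [Set.mem_ofPred_eq] at hx ⊢
    refine le_antisymm ?_ (cntS_nonneg _ _ _ _ _ _)
    rw [← hx, cntS_def', cntS_def']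
    refine sum_le_sum fun n _ => ?_
    by_cases h4 : wd b w n x ∈ W <;> by_cases h5 : g n <;> simp [h4, h5]
  refine hmono.trans ?_
  refine (prob_zero_le P (measurable_cntS b w N g (· ∈ W)) (cntS_le b w N g (· ∈ W)) hμ0).trans ?_
  rw [hLm] at e1
  have e1' := abs_le.1 e1
  have e2' := abs_le.1 e2
  have hnum : ∫ x, cntS b w N g (· ∈ W) x ^ 2 ∂P -
      2 * μ * ∫ x, cntS b w N g (· ∈ W) x ∂P + μ ^ 2 ≤ μ + τ + 2 * μ * τ := by
    have a1 : ∫ x, cntS b w N g (· ∈ W) x ^ 2 ∂P ≤ μ + μ ^ 2 + τ := by linarith [e2'.2]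
    have a2 : μ - τ ≤ ∫ x, cntS b w N g (· ∈ W) x ∂P := by linarith [e1'.1]
    have a3 : 2 * μ * (μ - τ) ≤ 2 * μ * ∫ x, cntS b w N g (· ∈ W) x ∂P := by gcongr
    nlinarith
  rw [div_le_div_iff₀ (by positivity) hμ0]
  have h5 : μ + τ + 2 * μ * τ ≤ 4 * μ := by nlinarith
  calc (∫ x, cntS b w N g (· ∈ W) x ^ 2 ∂P -
      2 * μ * ∫ x, cntS b w N g (· ∈ W) x ∂P + μ ^ 2) * μ ≤ (4 * μ) * μ := by
        gcongr; exact hnum.trans h5
    _ = 4 * μ ^ 2 := by ring

end Pool.Agent.U864.DL
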