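import Pool.Agent.U864.DL.Lang

/-!
# The longest word of a language: all windows at the same time
-/

set_option autoImplicit false

namespace Pool.Agent.U864.DL

open Finset Real MeasureTheory Filter Topology
open Pool.Agent.Y933.KD Pool.Agent.N639.FS Pool.Agent.N639.FG

/-- `K log N + 1` is small -/
lemma ev_log (K : ℝ) {a : ℝ} (ha : 0 < a) : ∀ᶠ N : ℕ in atTop,
    4 * (K * log N + 1) ≤ (N : ℝ) ^ a := by
  filter_upwards [log_pow_le (8 * K) 1 ha, log_pow_le 8 0 ha] with N h1 h2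
  rw [pow_one] at h1
  rw [pow_zero, mul_one] at h2
  linarith

/-- the growth of the language -/
lemma growth_bd {p : ℕ → ℝ} (hp : ∀ w, 0 ≤ p w) {h : ℝ} (hh : 0 < h)
    (hgr : Tendsto (fun w : ℕ => log (p w) / w) atTop (𝓝 (-h))) {δ : ℝ} (hδ : 0 < δ) (hδh : δ < h) :
    ∃ w1 : ℕ, 1 ≤ w1 ∧ ∀ w : ℕ, w1 ≤ w → exp (-((h + δ) * w)) ≤ p w ∧ p w ≤ exp (-((h - δ) * w)) := by
  have h1 := Metric.tendsto_atTop.1 hgr δ hδ
  obtain ⟨w1, hw1⟩ := h1
  refine ⟨max w1 1, le_max_right _ _, fun w hw => ?_⟩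
  have h2 := hw1 w ((le_max_left _ _).trans hw)
  have hw0 : (0 : ℝ) < w := by exact_mod_cast (le_max_right w1 1).trans hw
  rw [Real.dist_eq, abs_lt] at h2
  obtain ⟨h3, h4⟩ := h2
  have h5 : -(h + δ) * w < log (p w) := by
    have : -(h + δ) < log (p w) / w := by linarith
    rwa [lt_div_iff₀ hw0] at this
  have h6 : log (p w) < -(h - δ) * w := by
    have : log (p w) / w < -(h - δ) := by linarith
    rwa [div_lt_iff₀ hw0] at this
  have hpos : 0 < p w := by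
    rcases (hp w).lt_or_eq with h7 | h7
    · exact h7
    · exfalso
      rw [← h7, Real.log_zero] at h6
      nlinarith
  constructor
  · rw [← Real.le_log_iff_exp_le hpos]
    linarith
  · rw [← Real.log_le_iff_le_exp hpos]
    linarith

/-- one window -/
lemma lang_fix {b : ℕ} {Λ : ℕ → ℝ} {S : ℕ → Set (Measure ℝ)} (hb2 : 2 ≤ b) (hT : TG b Λ S)
    (W : ℕ → Finset ℕ) (hW : ∀ w, W w ⊆ range (b ^ w)) {h : ℝ} (hh : 0 < h)
    (hgr : Tendsto (fun w : ℕ => log ((W w).card / (b : ℝ) ^ w) / w) atTop (𝓝 (-h))) (C : ℝ)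
    {ε : ℝ} (hε : 0 < ε) (hε1 : ε < 1) : ∃ w1 N1 : ℕ, 1 ≤ w1 ∧ ∀ᶠ M : ℕ in atTop, ∀ P ∈ S M,
      ∀ N : ℕ, N1 ≤ N → (N : ℝ) ≤ Λ M → ∃ U : Set ℝ, MeasurableSet U ∧
        P.real U ≤ (N : ℝ) ^ (-(ε / 8)) ∧ ∀ x ∉ U,
        (∀ w : ℕ, w1 ≤ w → w * h ≤ (1 - ε) * log N → ∃ n < N, wd b w n x ∈ W w) ∧
        (∀ w : ℕ, (1 + ε) * log N ≤ w * h → (w : ℝ) ≤ C * log N → ∀ n < N, wd b w n x ∉ W w) := by
  classical
  have hb1 : 1 ≤ b := by omega
  have hbR : (2 : ℝ) ≤ b := by exact_mod_cast hb2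
  have hlb : 0 < log b := Real.log_pos (by linarith)
  set p : ℕ → ℝ := fun w => (W w).card / (b : ℝ) ^ w with hp
  have hp0 : ∀ w, 0 ≤ p w := fun w => by rw [hp]; positivity
  obtain ⟨w1, hw11, hw1⟩ := growth_bd hp0 hh hgr (δ := ε * h / 4) (by positivity) (by nlinarith)
  set K : ℝ := max C (1 / h) with hK
  have hK0 : 0 < K := lt_of_lt_of_le (by positivity) (le_max_right _ _)
  have hKC : C ≤ K := le_max_left _ _
  have hKh : 1 / h ≤ K := le_max_right _ _
  set D : ℕ := ⌈K * log b⌉₊ with hD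
  have hDK : K * log b ≤ D := Nat.le_ceil _
  have hlogN : Tendsto (fun N : ℕ => log (N : ℝ)) atTop atTop :=
    Real.tendsto_log_atTop.comp tendsto_natCast_atTop_atTop
  obtain ⟨N1, hN1⟩ := eventually_atTop.1 ((ev_log K (show 0 < ε / 8 by positivity)).and
    ((hlogN.eventually_ge_atTop (w1 * h + 1)).and (eventually_ge_atTop 3)))
  refine ⟨w1, N1, hw11, ?_⟩
  filter_upwards [trg hb1 hT 1 D 1, trg hb1 hT 2 D 1, hT.1.eventually_ge_atTop 1, hT.2.1]
    with M hM1 hM2 m3 hMp P hP N hN hNA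
  obtain ⟨n1, n2, n3⟩ := hN1 N hN
  have : IsProbabilityMeasure P := hMp P hP
  set L : ℝ := Λ M with hL
  have hL0 : 0 < L := by linarith
  have hN3 : (3 : ℝ) ≤ N := by exact_mod_cast n3
  have hNp : (0 : ℝ) < N := by linarith
  have hlN : 0 < log N := Real.log_pos (by linarith)
  set τ : ℝ := (L ^ 1)⁻¹ with hτ
  have hτ0 : 0 < τ := by positivity
  have hτ1 : τ ≤ 1 := by
    rw [hτ, pow_one]
    exact inv_le_one_of_one_le₀ m3
  set ν : ℝ := (N : ℝ) ^ (-(ε / 2)) with hν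
  have hν0 : 0 < ν := by positivity
  have hτν : τ ≤ ν := by
    rw [hτ, pow_one, hν, Real.rpow_neg hNp.le]
    apply inv_anti₀ (Real.rpow_pos_of_pos hNp _)
    calc (N : ℝ) ^ (ε / 2) ≤ (N : ℝ) ^ (1 : ℝ) :=
          Real.rpow_le_rpow_of_exponent_le (by linarith) (by linarith)
      _ = N := Real.rpow_one _
      _ ≤ L := hNA
  set Q : ℝ := K * log N + 1 with hQ
  have hQ1 : 1 ≤ Q := by
    have : 0 ≤ K * log N := by positivity
    rw [hQ]; linarith
  have hQN : 4 * Q ≤ (N : ℝ) ^ (ε / 8) := n1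
  -- sizes of words
  have hsize : ∀ w : ℕ, (w : ℝ) ≤ K * log N → (b : ℝ) ^ w ≤ L ^ D := by
    intro w hw
    have h1 : (b : ℝ) ^ w ≤ (N : ℝ) ^ D := by
      rw [← Real.log_le_log_iff (by positivity) (by positivity), Real.log_pow, Real.log_pow]
      calc (w : ℝ) * log b ≤ K * log N * log b := by gcongr
        _ = K * log b * log N := by ring
        _ ≤ D * log N := by gcongr
    exact h1.trans (by gcongr)
  have hT1 : ∀ w : ℕ, (w : ℝ) ≤ K * log N → Ts 1 b w N τ P := fun w hw F hF =>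
    hM1 P hP w N hNA (hsize w hw) F hF
  have hT2 : ∀ w : ℕ, (w : ℝ) ≤ K * log N → Ts 2 b w N τ P := fun w hw F hF =>
    hM2 P hP w N hNA (hsize w hw) F hF
  have hexp : ∀ a : ℝ, (N : ℝ) ^ a = exp (a * log N) := fun a => by
    rw [Real.rpow_def_of_pos hNp, mul_comm]
  -- lower part
  have hlow : ∀ w : ℕ, w1 ≤ w → w * h ≤ (1 - ε) * log N →
      P.real {x | cntS b w N (fun _ => True) (· ∈ W w) x = 0} ≤ 8 * Q * ν := by
    intro w hww hw
    have hwp : 1 ≤ w := hw11.trans hww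
    have hwR : (1 : ℝ) ≤ w := by exact_mod_cast hwp
    have hwK : (w : ℝ) ≤ K * log N := by
      have h1 : (w : ℝ) ≤ 1 / h * log N := by
        rw [div_mul_eq_mul_div, one_mul, le_div_iff₀ hh]
        have : 0 ≤ ε * log N := by positivity
        linarith
      exact h1.trans (by gcongr)
    have hpw : (N : ℝ) ^ (-(1 - ε / 2)) ≤ p w := by
      refine le_trans ?_ (hw1 w hww).1
      rw [hexp]
      apply Real.exp_le_exp.2
      have : (h + ε * h / 4) * w = (1 + ε / 4) * (w * h) := by ring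
      rw [this]
      have h2 : (1 + ε / 4) * (w * h) ≤ (1 + ε / 4) * ((1 - ε) * log N) := by gcongr
      have e1 : 0 ≤ ε * log N := by positivity
      have e2 : 0 ≤ ε * ε * log N := by positivity
      linarith
    have hwN : (2 : ℝ) * w ≤ N := by
      have h1 : (N : ℝ) ^ (ε / 8) ≤ N := by
        calc (N : ℝ) ^ (ε / 8) ≤ (N : ℝ) ^ (1 : ℝ) :=
              Real.rpow_le_rpow_of_exponent_le (by linarith) (by linarith)
          _ = N := Real.rpow_one _
      have h2 : (w : ℝ) ≤ Q := by rw [hQ]; linarith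
      linarith
    have hJ : (N : ℝ) / (2 * w) ≤ ((N / w : ℕ) : ℝ) := by
      have h1 : N < w * (N / w + 1) := Nat.lt_mul_div_succ N (by omega)
      have h2 : (N : ℝ) < w * (((N / w : ℕ) : ℝ) + 1) := by exact_mod_cast h1
      rw [div_le_iff₀ (by positivity)]
      linarith
    have hμ : (2 * Q * ν)⁻¹ ≤ ((N / w : ℕ) : ℝ) * p w := by
      have h3 : (N : ℝ) / (2 * w) * (N : ℝ) ^ (-(1 - ε / 2)) ≤ ((N / w : ℕ) : ℝ) * p w := by
        gcongr
      refine le_trans ?_ h3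
      have h4 : (N : ℝ) * (N : ℝ) ^ (-(1 - ε / 2)) = ν⁻¹ := by
        rw [hν, ← Real.rpow_neg hNp.le, neg_neg]
        nth_rewrite 1 [← Real.rpow_one (N : ℝ)]
        rw [← Real.rpow_add hNp]
        congr 1
        ring
      have h5 : (N : ℝ) / (2 * w) * (N : ℝ) ^ (-(1 - ε / 2)) = ν⁻¹ / (2 * w) := by
        rw [← h4]
        ring
      have h6 : (w : ℝ) ≤ Q := by rw [hQ]; linarith
      have h7 : (2 * Q * ν)⁻¹ = ν⁻¹ / (2 * Q) := by
        rw [mul_inv, div_eq_mul_inv, mul_comm]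
      have h8 : 0 < ν⁻¹ := by positivity
      rw [h5, h7]
      gcongr
    have h2Q : 2 * Q * ν ≤ 1 := by
      have h6 : (N : ℝ) ^ (ε / 8) * ν ≤ 1 := by
        rw [hν, ← Real.rpow_add hNp]
        apply Real.rpow_le_one_of_one_le_of_nonpos (by linarith)
        linarith
      have h7 := mul_le_mul_of_nonneg_right hQN hν0.le
      linarith
    have hμ1 : 1 ≤ ((N / w : ℕ) : ℝ) * p w :=
      (one_le_inv_iff₀.2 ⟨by positivity, h2Q⟩).trans hμ
    refine (low_bd hb1 hwp (hW w) hτ0.le hτ1 P (hT1 w hwK) (hT2 w hwK) hμ1).trans ?_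
    rw [div_le_iff₀ (by linarith)]
    have h7 : 1 ≤ (2 * Q * ν) * (((N / w : ℕ) : ℝ) * p w) := by
      have := mul_le_mul_of_nonneg_left hμ (show 0 ≤ 2 * Q * ν by positivity)
      rwa [mul_inv_cancel₀ (by positivity)] at this
    calc (4 : ℝ) = 4 * 1 := by ring
      _ ≤ 4 * ((2 * Q * ν) * (((N / w : ℕ) : ℝ) * p w)) := by gcongr
      _ = 8 * Q * ν * (((N / w : ℕ) : ℝ) * ((W w).card / (b : ℝ) ^ w)) := by rw [hp]; ring
  -- upper part
  have hup : ∀ w : ℕ, (1 + ε) * log N ≤ w * h → (w : ℝ) ≤ C * log N →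
      P.real {x | 1 ≤ cntS b w N (fun _ => True) (· ∈ W w) x} ≤ 2 * ν := by
    intro w hw hwC
    have hwK : (w : ℝ) ≤ K * log N := hwC.trans (by gcongr)
    have hww : w1 ≤ w := by
      have h1 : (w1 : ℝ) * h ≤ w * h := by
        have : 0 ≤ ε * log N := by positivity
        linarith
      have h2 : (w1 : ℝ) ≤ w := le_of_mul_le_mul_right h1 hh
      exact_mod_cast h2
    have hpw : p w ≤ (N : ℝ) ^ (-(1 + ε / 2)) := by
      refine (hw1 w hww).2.trans ?_
      rw [hexp]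
      apply Real.exp_le_exp.2
      have : (h - ε * h / 4) * w = (1 - ε / 4) * (w * h) := by ring
      rw [this]
      have h2 : (1 - ε / 4) * ((1 + ε) * log N) ≤ (1 - ε / 4) * (w * h) := by
        apply mul_le_mul_of_nonneg_left hw
        linarith
      have e1 : 0 ≤ ε * (1 - ε) * log N :=
        mul_nonneg (mul_nonneg hε.le (by linarith)) hlN.le
      linarith
    refine (up_bd hb1 (hW w) P (hT1 w hwK)).trans ?_
    have h3 : (N : ℝ) * p w ≤ ν := by
      calc (N : ℝ) * p w ≤ N * (N : ℝ) ^ (-(1 + ε / 2)) := by gcongr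
        _ = ν := by
            rw [hν]
            nth_rewrite 1 [← Real.rpow_one (N : ℝ)]
            rw [← Real.rpow_add hNp]
            congr 1
            ring
    have h4 : (N : ℝ) * ((W w).card / (b : ℝ) ^ w) ≤ ν := h3
    linarith
  -- the exceptional set
  set G : Finset ℕ := range (⌊K * log N⌋₊ + 1) with hG
  have hGc : (G.card : ℝ) ≤ Q := by
    rw [hG, card_range, hQ]
    push_cast
    have := Nat.floor_le (show 0 ≤ K * log N by positivity)
    linarith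
  have hGm : ∀ w : ℕ, (w : ℝ) ≤ K * log N → w ∈ G := fun w hw => by
    rw [hG, mem_range, Nat.lt_succ_iff]
    exact Nat.le_floor hw
  set A1 : ℕ → Set ℝ := fun w => if w1 ≤ w ∧ w * h ≤ (1 - ε) * log N then
    {x | cntS b w N (fun _ => True) (· ∈ W w) x = 0} else ∅ with hA1
  set A2 : ℕ → Set ℝ := fun w => if (1 + ε) * log N ≤ w * h ∧ (w : ℝ) ≤ C * log N then
    {x | 1 ≤ cntS b w N (fun _ => True) (· ∈ W w) x} else ∅ with hA2
  refine ⟨⋃ w ∈ G, (A1 w ∪ A2 w), ?_, ?_, ?_⟩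
  · refine Finset.measurableSet_biUnion _ fun w _ => MeasurableSet.union ?_ ?_
    · rw [hA1]
      dsimp only
      split_ifs
      · exact measurableSet_eq_fun (measurable_cntS _ _ _ _ _) measurable_const
      · exact MeasurableSet.empty
    · rw [hA2]
      dsimp only
      split_ifs
      · exact measurableSet_le measurable_const (measurable_cntS _ _ _ _ _)
      · exact MeasurableSet.empty
  · have h1 : ∀ w ∈ G, P.real (A1 w ∪ A2 w) ≤ 10 * Q * ν := by
      intro w _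
      refine (measureReal_union_le _ _).trans ?_
      have h2 : P.real (A1 w) ≤ 8 * Q * ν := by
        rw [hA1]
        dsimp only
        split_ifs with hc
        · exact hlow w hc.1 hc.2
        · rw [measureReal_empty]; positivity
      have h3 : P.real (A2 w) ≤ 2 * ν := by
        rw [hA2]
        dsimp only
        split_ifs with hc
        · exact hup w hc.1 hc.2
        · rw [measureReal_empty]; positivity
      have h4 : ν ≤ Q * ν := le_mul_of_one_le_left hν0.le hQ1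
      linarith
    refine (measureReal_biUnion_finset_le _ _).trans ((sum_le_sum h1).trans ?_)
    rw [sum_const, nsmul_eq_mul]
    have hNe : 0 < (N : ℝ) ^ (ε / 8) := by positivity
    calc (G.card : ℝ) * (10 * Q * ν) ≤ Q * (10 * Q * ν) := by gcongr
      _ = 10 / 16 * (4 * Q) * (4 * Q) * ν := by ring
      _ ≤ 1 * (N : ℝ) ^ (ε / 8) * (N : ℝ) ^ (ε / 8) * ν := by
          gcongr
          norm_num
      _ = (N : ℝ) ^ (-(ε / 4)) := by
          rw [one_mul, hν, ← Real.rpow_add hNp, ← Real.rpow_add hNp]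
          congr 1
          ring
      _ ≤ (N : ℝ) ^ (-(ε / 8)) := by
          apply Real.rpow_le_rpow_of_exponent_le (by linarith)
          linarith
  · intro x hx
    simp only [Set.mem_iUnion, not_exists, Set.mem_union, not_or] at hx
    constructor
    · intro w hww hw
      have hwK : (w : ℝ) ≤ K * log N := by
        have h1 : (w : ℝ) ≤ 1 / h * log N := by
          rw [div_mul_eq_mul_div, one_mul, le_div_iff₀ hh]
          have : 0 ≤ ε * log N := by positivity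
          linarith
        exact h1.trans (by gcongr)
      have h2 := (hx w (hGm w hwK)).1
      rw [hA1] at h2
      dsimp only at h2
      rw [if_pos ⟨hww, hw⟩] at h2
      by_contra hcon
      push Not at hcon
      apply h2
      simp only [Set.mem_ofPred_eq]
      rw [cntS_def']
      refine sum_eq_zero fun n hn => ?_
      rw [if_neg]
      rintro ⟨-, h3⟩
      exact hcon n (mem_range.1 hn) h3
    · intro w hw hwC n hn hcon
      have hwK : (w : ℝ) ≤ K * log N := hwC.trans (by gcongr)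
      have h2 := (hx w (hGm w hwK)).2
      rw [hA2] at h2
      dsimp only at h2
      rw [if_pos ⟨hw, hwC⟩] at h2
      apply h2
      simp only [Set.mem_ofPred_eq]
      rw [cntS_def']
      have h3 : (1 : ℝ) = if True ∧ wd b w n x ∈ W w then 1 else 0 := by
        rw [if_pos ⟨trivial, hcon⟩]
      exact h3.le.trans (single_le_sum
        (f := fun n => if True ∧ wd b w n x ∈ W w then (1 : ℝ) else 0)
        (fun i _ => by split_ifs <;> simp) (mem_range.2 hn))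

/-- **the longest word of a language**, all `N` at the same time -/
theorem lang_all {b : ℕ} {Λ : ℕ → ℝ} {S : ℕ → Set (Measure ℝ)} (hb2 : 2 ≤ b) (hT : TG b Λ S)
    (W : ℕ → Finset ℕ) (hW : ∀ w, W w ⊆ range (b ^ w)) {h : ℝ} (hh : 0 < h)
    (hgr : Tendsto (fun w : ℕ => log ((W w).card / (b : ℝ) ^ w) / w) atTop (𝓝 (-h))) (C : ℝ)
    {ε : ℝ} (hε : 0 < ε) : ∃ w0 N0 : ℕ, 1 ≤ N0 ∧ ∀ᶠ M : ℕ in atTop, ∀ P ∈ S M,
      ∃ V : Set ℝ, MeasurableSet V ∧ P.real V ≤ ε ∧ ∀ x ∉ V, ∀ N : ℕ, N0 ≤ N → (N : ℝ) ≤ Λ M →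
        (∀ w : ℕ, w0 ≤ w → w * h ≤ (1 - ε) * log N → ∃ n < N, wd b w n x ∈ W w) ∧
        (∀ w : ℕ, (1 + ε) * log N ≤ w * h → (w : ℝ) ≤ C * log N → ∀ n < N, wd b w n x ∉ W w) := by
  classical
  set ε1 : ℝ := min ε 1 / 4 with hε1
  have h0 : 0 < min ε 1 := lt_min hε one_pos
  have h01 : min ε 1 ≤ 1 := min_le_right _ _
  have h02 : min ε 1 ≤ ε := min_le_left _ _
  have e0 : 0 < ε1 := by positivity
  have e1 : ε1 < 1 := by rw [hε1]; linarith
  have e2 : 4 * ε1 ≤ ε := by rw [hε1]; linarith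
  have e3 : ε1 ≤ 1 / 4 := by rw [hε1]; linarith
  obtain ⟨w1, N1, hw11, hN1⟩ := lang_fix hb2 hT W hW hh hgr (max C 0) e0 e1
  obtain ⟨j1, hj1⟩ := exists_nat_ge (8 / ε1)
  have hj1' : 8 ≤ ε1 * (j1 : ℝ) := by
    rw [div_le_iff₀ e0] at hj1
    linarith
  obtain ⟨j0, hj0, hgrid⟩ := grid (p := ε1 / 8) (by positivity) hε (max N1 (2 ^ j1))
  have hj01 : j1 ≤ j0 := by
    have : 2 ^ j1 ≤ 2 ^ j0 := (le_max_right _ _).trans hj0
    exact (Nat.pow_le_pow_iff_right (by norm_num)).1 this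
  have hj08 : 8 ≤ ε1 * (j0 : ℝ) := hj1'.trans (by gcongr)
  refine ⟨w1, 2 ^ j0, Nat.one_le_two_pow, ?_⟩
  filter_upwards [hN1, hT.1.eventually_ge_atTop ((2 : ℝ) ^ j0), hT.2.1] with M hM hΛ hMp P hP
  have := hMp P hP
  have h1 : ∀ N : ℕ, ∃ U : Set ℝ, N1 ≤ N → (N : ℝ) ≤ Λ M → MeasurableSet U ∧
      P.real U ≤ (N : ℝ) ^ (-(ε1 / 8)) ∧ ∀ x ∉ U,
        (∀ w : ℕ, w1 ≤ w → w * h ≤ (1 - ε1) * log N → ∃ n < N, wd b w n x ∈ W w) ∧
        (∀ w : ℕ, (1 + ε1) * log N ≤ w * h → (w : ℝ) ≤ max C 0 * log N →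
          ∀ n < N, wd b w n x ∉ W w) := by
    intro N
    by_cases h : N1 ≤ N ∧ (N : ℝ) ≤ Λ M
    · obtain ⟨U, hU⟩ := hM P hP N h.1 h.2
      exact ⟨U, fun _ _ => hU⟩
    · exact ⟨∅, fun h1 h2 => absurd ⟨h1, h2⟩ h⟩
  choose U hU using h1
  have hN1j : N1 ≤ 2 ^ j0 := (le_max_left _ _).trans hj0
  obtain ⟨V, hV1, hV2, hV3, hV4⟩ := hgrid P (Λ M) hΛ U (fun N hN hNΛ =>
    ⟨(hU N ((le_max_left _ _).trans hN) hNΛ).1, (hU N ((le_max_left _ _).trans hN) hNΛ).2.1⟩)
  refine ⟨V, hV1, hV2, fun x hx N hN hNΛ => ?_⟩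
  have hΛ0 : 0 < Λ M := lt_of_lt_of_le (by positivity) hΛ
  have hfl : 2 ^ j0 ≤ ⌊Λ M⌋₊ := Nat.le_floor (by push_cast; exact hΛ)
  obtain ⟨j, i1, i2, i3, i4, N', i5, i6, i7⟩ := neighbours e0 hN hNΛ hj08 (by linarith)
  have hNR : (1 : ℝ) ≤ N := by
    have h3 : 1 ≤ 2 ^ j0 := Nat.one_le_two_pow
    exact_mod_cast h3.trans hN
  have hlN : 0 ≤ log (N : ℝ) := Real.log_nonneg hNR
  have hlj : 0 ≤ log ((2 : ℝ) ^ j) := Real.log_nonneg (one_le_pow₀ (by norm_num))
  constructor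
  · intro w hww hw
    have hxj : x ∉ U (2 ^ j) := fun h => hx (hV3 j i1 i3 h)
    obtain ⟨n, hn, hn'⟩ := ((hU (2 ^ j) (hN1j.trans (Nat.pow_le_pow_right (by norm_num) i1))
      (by push_cast; exact i3)).2.2 x hxj).1 w hww (by
        push_cast
        by_cases hε2 : ε < 1
        · calc w * h ≤ (1 - ε) * log N := hw
            _ ≤ (1 - ε) * ((1 + ε1) * log ((2 : ℝ) ^ j)) := by
                refine mul_le_mul_of_nonneg_left i4 (by linarith)
            _ = ((1 - ε) * (1 + ε1)) * log ((2 : ℝ) ^ j) := by ring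
            _ ≤ (1 - ε1) * log ((2 : ℝ) ^ j) := by
                refine mul_le_mul_of_nonneg_right ?_ hlj
                nlinarith
        · push Not at hε2
          have h4 : (1 - ε) * log (N : ℝ) ≤ 0 := mul_nonpos_of_nonpos_of_nonneg (by linarith) hlN
          have h5 : 0 ≤ (1 - ε1) * log ((2 : ℝ) ^ j) := mul_nonneg (by linarith) hlj
          linarith)
    exact ⟨n, by omega, hn'⟩
  · intro w hw hwC n hn
    have hN'1 : N1 ≤ N' ∧ (N' : ℝ) ≤ Λ M ∧ x ∉ U N' := by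
      rcases i5 with ⟨i, k1, k2, rfl⟩ | rfl
      · refine ⟨hN1j.trans (Nat.pow_le_pow_right (by norm_num) k1), by push_cast; exact k2,
          fun h => hx (hV3 i k1 k2 h)⟩
      · exact ⟨hN1j.trans hfl, Nat.floor_le hΛ0.le, fun h => hx (hV4 h)⟩
    have hNN' : log (N : ℝ) ≤ log (N' : ℝ) :=
      Real.log_le_log (by linarith) (by exact_mod_cast i6)
    refine ((hU N' hN'1.1 hN'1.2.1).2.2 x hN'1.2.2).2 w ?_ ?_ n (by omega)
    · calc (1 + ε1) * log N' ≤ (1 + ε1) * ((1 + ε1) * log N) := by gcongr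
        _ = ((1 + ε1) * (1 + ε1)) * log N := by ring
        _ ≤ (1 + ε) * log N := by
            refine mul_le_mul_of_nonneg_right ?_ hlN
            nlinarith
        _ ≤ w * h := hw
    · calc (w : ℝ) ≤ C * log N := hwC
        _ ≤ max C 0 * log N := by gcongr; exact le_max_left _ _
        _ ≤ max C 0 * log N' := by
            refine mul_le_mul_of_nonneg_left hNN' (le_max_right _ _)

/-- **the longest word of a language** in windows -/
theorem lang_win {b : ℕ} {Λ : ℕ → ℝ} {S : ℕ → Set (Measure ℝ)} (hb2 : 2 ≤ b)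
    (hT : TG b (fun M => 2 * Λ M) S) (W : ℕ → Finset ℕ) (hW : ∀ w, W w ⊆ range (b ^ w)) {h : ℝ}
    (hh : 0 < h) (hgr : Tendsto (fun w : ℕ => log ((W w).card / (b : ℝ) ^ w) / w) atTop (𝓝 (-h)))
    (C : ℝ) {ε : ℝ} (hε : 0 < ε) : ∃ w0 N0 : ℕ, 1 ≤ N0 ∧ ∀ᶠ M : ℕ in atTop, ∀ P ∈ S M, ∀ s : ℕ,
      (s : ℝ) ≤ Λ M → ∃ V : Set ℝ, MeasurableSet V ∧ P.real V ≤ ε ∧ ∀ x ∉ V, ∀ N : ℕ, N0 ≤ N →
        (N : ℝ) ≤ Λ M →
        (∀ w : ℕ, w0 ≤ w → w * h ≤ (1 - ε) * log N → ∃ n < N, wd b w (s + n) x ∈ W w) ∧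
        (∀ w : ℕ, (1 + ε) * log N ≤ w * h → (w : ℝ) ≤ C * log N →
          ∀ n < N, wd b w (s + n) x ∉ W w) := by
  obtain ⟨w0, N0, hN01, hN0⟩ := lang_all hb2 (tg_shift (by omega) hT) W hW hh hgr C hε
  refine ⟨w0, N0, hN01, ?_⟩
  filter_upwards [hN0] with M hM P hP s hs
  obtain ⟨V, hV1, hV2, hV3⟩ := hM (P.map (Tb b s)) ⟨P, hP, s, hs, rfl⟩
  refine ⟨Tb b s ⁻¹' V, measurable_Tb b s hV1, ?_, fun x hx => ?_⟩
  · rw [map_real b s hV1]
    exact hV2
  · simp only [wd_add]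
    exact hV3 _ hx

end Pool.Agent.U864.DL
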