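import Mathlib

/-!
# Languages and the digits of a real number: the definitions
-/

set_option autoImplicit false

namespace Pool.Agent.U864.DL

/-- the list of the `w` digits in base `b` of the real number `x` which follow the first `n` digits
after the point -/
noncomputable def block (b n w : ℕ) (x : ℝ) : List ℕ :=
  (List.range w).map fun i => ⌊(b : ℝ) * Int.fract ((b : ℝ) ^ (n + i) * x)⌋₊

/-- the words of length `w` over the digits `0, …, b - 1` in the language `𝓛` -/
def wordsOf (b : ℕ) (𝓛 : Set (List ℕ)) (w : ℕ) : Set (List ℕ) :=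
  {l | l ∈ 𝓛 ∧ l.length = w ∧ ∀ a ∈ l, a < b}

/-- `θ` is the growth rate of the language `𝓛` over the digits `0, …, b - 1`: the `w`-th root of the
number of its words of length `w` tends to `θ` -/
def GrowthRate (b : ℕ) (𝓛 : Set (List ℕ)) (θ : ℝ) : Prop :=
  Filter.Tendsto (fun w : ℕ => ((wordsOf b 𝓛 w).ncard : ℝ) ^ (1 / (w : ℝ))) Filter.atTop (nhds θ)

/-- all beginnings of the words in `𝓛` are in `𝓛` -/
def PrefixClosed (𝓛 : Set (List ℕ)) : Prop := ∀ l ∈ 𝓛, ∀ k : ℕ, l.take k ∈ 𝓛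

/-- The law of the longest word of the language `𝓛` (of growth rate `θ`) for the number `x` and the
windows which consist of the `N` places `s, …, s + N - 1`, for all `N` with `N₀ ≤ N ≤ L` at the same
time: a word in `𝓛` of every length `w ≥ w₀` up to `(1 - ε) log N / log (b / θ)` starts in the window,
and no word in `𝓛` of length `w ≥ (1 + ε) log N / log (b / θ)` starts there; here `w` is at most
`C log N` if `𝓛` is not closed under prefixes. -/
def LongestWordLaw (b : ℕ) (𝓛 : Set (List ℕ)) (θ C ε : ℝ) (w₀ N₀ s : ℕ) (L : ℝ) (x : ℝ) : Prop :=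
  ∀ N : ℕ, N₀ ≤ N → (N : ℝ) ≤ L →
    (∀ w : ℕ, w₀ ≤ w → (w : ℝ) ≤ (1 - ε) * (Real.log N / Real.log (b / θ)) →
      ∃ n, s ≤ n ∧ n < s + N ∧ block b n w x ∈ 𝓛) ∧
    (∀ w : ℕ, (1 + ε) * (Real.log N / Real.log (b / θ)) ≤ w →
      ((w : ℝ) ≤ C * Real.log N ∨ PrefixClosed 𝓛) →
      ∀ n, s ≤ n → n < s + N → block b n w x ∉ 𝓛)

end Pool.Agent.U864.DL
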