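import Pool.Agent.U864.DL.Lang2
import Pool.Agent.U864.DL.LangDef

/-!
# The longest word of a language, in terms of digits
-/

set_option autoImplicit false

namespace Pool.Agent.U864.DL

open Finset Real MeasureTheory Filter Topology
open Pool.Agent.Y933.KD Pool.Agent.N639.FS Pool.Agent.N639.FG

lemma block_eq (b n w : ℕ) (x : ℝ) :
    block b n w x = (List.range w).map fun i => digit b (n + i) x := rfl

lemma length_block (b n w : ℕ) (x : ℝ) : (block b n w x).length = w := by
  rw [block_eq, List.length_map, List.length_range]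

lemma block_lt {b : ℕ} (hb : 1 ≤ b) (n w : ℕ) (x : ℝ) : ∀ a ∈ block b n w x, a < b := by
  intro a ha
  rw [block_eq, List.mem_map] at ha
  obtain ⟨i, _, rfl⟩ := ha
  rw [digit_eq]
  simpa using wd_lt hb 1 (n + i) x

lemma block_succ (b n w : ℕ) (x : ℝ) :
    block b n (w + 1) x = block b n w x ++ [digit b (n + w) x] := by
  rw [block_eq, block_eq, List.range_succ, List.map_append, List.map_singleton]

lemma block_take (b n : ℕ) {w k : ℕ} (h : k ≤ w) (x : ℝ) :
    (block b n w x).take k = block b n k x := by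
  rw [block_eq, block_eq, ← List.map_take, List.take_range, min_eq_left h]

/-- the number with the digits `l` -/
def code (b : ℕ) (l : List ℕ) : ℕ := Nat.ofDigits b l.reverse

lemma wd_eq_code {b : ℕ} (n w : ℕ) (x : ℝ) : wd b w n x = code b (block b n w x) := by
  induction w with
  | zero =>
    rw [wd_zero']
    simp [code, block_eq]
  | succ w ih =>
    rw [wd_split w 1 n x, ih, ← digit_eq, pow_one, block_succ]
    unfold code
    rw [List.reverse_append, List.reverse_singleton, List.singleton_append, Nat.ofDigits_cons,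
      add_comm]

lemma code_inj {b : ℕ} (hb : 2 ≤ b) {l l' : List ℕ} (hl : ∀ a ∈ l, a < b) (hl' : ∀ a ∈ l', a < b)
    (hlen : l.length = l'.length) (h : code b l = code b l') : l = l' := by
  have := Nat.ofDigits_inj_of_len_eq (b := b) (by omega) (L1 := l.reverse) (L2 := l'.reverse)
    (by simpa using hlen) (by simpa using hl) (by simpa using hl') h
  exact List.reverse_injective this

lemma code_lt {b : ℕ} (hb : 2 ≤ b) {l : List ℕ} (hl : ∀ a ∈ l, a < b) : code b l < b ^ l.length := by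
  have := Nat.ofDigits_lt_base_pow_length (b := b) (l := l.reverse) (by omega) (by simpa using hl)
  rwa [List.length_reverse] at this

open Classical in
/-- the codes of the words of length `w` -/
noncomputable def codes (b : ℕ) (𝓛 : Set (List ℕ)) (w : ℕ) : Finset ℕ :=
  (range (b ^ w)).filter fun c => ∃ l ∈ wordsOf b 𝓛 w, code b l = c

open Classical in
lemma codes_sub (b : ℕ) (𝓛 : Set (List ℕ)) (w : ℕ) : codes b 𝓛 w ⊆ range (b ^ w) :=
  Finset.filter_subset _ _

lemma card_codes {b : ℕ} (hb : 2 ≤ b) (𝓛 : Set (List ℕ)) (w : ℕ) :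
    (codes b 𝓛 w).card = (wordsOf b 𝓛 w).ncard := by
  have h1 : ((codes b 𝓛 w : Finset ℕ) : Set ℕ) = code b '' wordsOf b 𝓛 w := by
    ext c
    simp only [codes, Finset.coe_filter, mem_range, Set.mem_ofPred_eq, Set.mem_image]
    constructor
    · rintro ⟨-, l, hl, h⟩
      exact ⟨l, hl, h⟩
    · rintro ⟨l, hl, rfl⟩
      refine ⟨?_, l, hl, rfl⟩
      have := code_lt hb hl.2.2
      rwa [hl.2.1] at this
  have h2 : Set.InjOn (code b) (wordsOf b 𝓛 w) := fun l hl l' hl' h =>
    code_inj hb hl.2.2 hl'.2.2 (hl.2.1.trans hl'.2.1.symm) h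
  rw [← Set.ncard_coe_finset, h1, h2.ncard_image]

open Classical in
lemma wd_mem_codes {b : ℕ} (hb : 2 ≤ b) (𝓛 : Set (List ℕ)) (n w : ℕ) (x : ℝ) :
    wd b w n x ∈ codes b 𝓛 w ↔ block b n w x ∈ 𝓛 := by
  have hb1 : 1 ≤ b := by omega
  unfold codes
  rw [mem_filter, mem_range]
  constructor
  · rintro ⟨-, l, hl, h⟩
    rw [wd_eq_code] at h
    have := code_inj hb hl.2.2 (block_lt hb1 n w x) (hl.2.1.trans (length_block b n w x).symm) h
    rw [← this]
    exact hl.1
  · intro h
    refine ⟨wd_lt hb1 w n x, block b n w x, ⟨h, length_block b n w x, block_lt hb1 n w x⟩, ?_⟩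
    rw [wd_eq_code]

/-- the growth rate of the codes -/
lemma growth_codes {b : ℕ} (hb : 2 ≤ b) {a : ℕ → ℕ} {θ : ℝ} (hθ : 0 < θ)
    (h : Tendsto (fun w : ℕ => ((a w : ℕ) : ℝ) ^ (1 / (w : ℝ))) atTop (𝓝 θ)) :
    Tendsto (fun w : ℕ => log ((a w : ℝ) / (b : ℝ) ^ w) / w) atTop (𝓝 (-(log (b / θ)))) := by
  have hbp : (0 : ℝ) < b := by
    have : 0 < b := by omega
    exact_mod_cast this
  have h1 : Tendsto (fun w : ℕ => log (((a w : ℕ) : ℝ) ^ (1 / (w : ℝ))) - log b) atTop
      (𝓝 (log θ - log b)) := ((Real.continuousAt_log hθ.ne').tendsto.comp h).sub_const _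
  have h2 : log θ - log b = -(log (b / θ)) := by
    rw [Real.log_div hbp.ne' hθ.ne']
    ring
  rw [h2] at h1
  refine h1.congr' ?_
  filter_upwards [h.eventually (lt_mem_nhds (show θ / 2 < θ by linarith)), eventually_ge_atTop 1]
    with w hw hw1
  have hwp : (0 : ℝ) < w := by exact_mod_cast hw1
  have ha : (0 : ℝ) < a w := by
    rcases (Nat.cast_nonneg (α := ℝ) (a w)).lt_or_eq with h3 | h3
    · exact h3
    · exfalso
      rw [← h3, Real.zero_rpow (by positivity)] at hw
      linarith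
  rw [Real.log_rpow ha, Real.log_div ha.ne' (by positivity), Real.log_pow]
  field_simp

/-- **the longest word of a language** in windows, in terms of digits -/
theorem longest_word {b : ℕ} {Λ : ℕ → ℝ} {S : ℕ → Set (Measure ℝ)} (hb2 : 2 ≤ b)
    (hT : TG b (fun M => 2 * Λ M) S) (𝓛 : Set (List ℕ)) {θ : ℝ} (hθ : 0 < θ) (hθb : θ < b)
    (hg : GrowthRate b 𝓛 θ) (C : ℝ) {ε : ℝ} (hε : 0 < ε) : ∃ w0 N0 : ℕ, ∀ᶠ M : ℕ in atTop,
      ∀ P ∈ S M, ∀ s : ℕ, (s : ℝ) ≤ Λ M → ∃ V : Set ℝ, MeasurableSet V ∧ P.real V ≤ ε ∧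
        ∀ x ∉ V, LongestWordLaw b 𝓛 θ C ε w0 N0 s (Λ M) x := by
  have hbp : (0 : ℝ) < b := by
    have : 0 < b := by omega
    exact_mod_cast this
  set h : ℝ := log (b / θ) with hh
  have hh0 : 0 < h := Real.log_pos (by rw [one_lt_div hθ]; exact hθb)
  have hgr : Tendsto (fun w : ℕ => log ((codes b 𝓛 w).card / (b : ℝ) ^ w) / w) atTop (𝓝 (-h)) := by
    simp only [card_codes hb2]
    exact growth_codes hb2 hθ hg
  set C' : ℝ := max C ((1 + ε) / h + 1) with hC'
  obtain ⟨w0, N0, hN01, hN0⟩ := lang_win hb2 hT (codes b 𝓛) (codes_sub b 𝓛) hh0 hgr C' hε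
  refine ⟨w0, max N0 3, ?_⟩
  filter_upwards [hN0] with M hM P hP s hs
  obtain ⟨V, hV1, hV2, hV3⟩ := hM P hP s hs
  refine ⟨V, hV1, hV2, fun x hx N hN hNL => ?_⟩
  obtain ⟨g1, g2⟩ := hV3 x hx N ((le_max_left _ _).trans hN) hNL
  have hN3 : (3 : ℝ) ≤ N := by exact_mod_cast (le_max_right _ _).trans hN
  have hlN : 1 ≤ log (N : ℝ) := by
    rw [Real.le_log_iff_exp_le (by linarith)]
    have := Real.exp_one_lt_d9
    linarith
  have key : ∀ w : ℕ, (1 + ε) * (log N / h) ≤ w → (w : ℝ) ≤ C' * log N → ∀ n, s ≤ n → n < s + N →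
      block b n w x ∉ 𝓛 := by
    intro w hw hwC n h1 h2 h3
    have hw' : (1 + ε) * log N ≤ w * h := by
      rw [← mul_div_assoc, div_le_iff₀ hh0] at hw
      exact hw
    have h4 := g2 w hw' hwC (n - s) (by omega)
    rw [show s + (n - s) = n by omega] at h4
    exact h4 ((wd_mem_codes hb2 𝓛 n w x).2 h3)
  constructor
  · intro w hw0 hw
    have hw' : w * h ≤ (1 - ε) * log N := by
      rw [← mul_div_assoc, le_div_iff₀ hh0] at hw
      exact hw
    obtain ⟨n, hn, h3⟩ := g1 w hw0 hw'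
    exact ⟨s + n, by omega, by omega, (wd_mem_codes hb2 𝓛 (s + n) w x).1 h3⟩
  · intro w hw hor n h1 h2 h3
    rcases hor with hC | hpre
    · exact key w hw (hC.trans (by gcongr; exact le_max_left _ _)) n h1 h2 h3
    · set w' : ℕ := ⌈(1 + ε) * (log N / h)⌉₊ with hw'
      have h0 : 0 ≤ (1 + ε) * (log N / h) := by positivity
      have h4 : w' ≤ w := Nat.ceil_le.2 hw
      have h5 : (w' : ℝ) ≤ C' * log N := by
        have h6 := (Nat.ceil_lt_add_one h0).le
        rw [← hw'] at h6
        refine h6.trans ?_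
        have h7 : ((1 + ε) / h + 1) * log N ≤ C' * log N := by gcongr; exact le_max_right _ _
        refine le_trans ?_ h7
        have h8 : (1 + ε) * (log N / h) = (1 + ε) / h * log N := by ring
        rw [h8]
        linarith
      refine key w' (Nat.le_ceil _) h5 n h1 h2 ?_
      rw [← block_take b n h4 x]
      exact hpre _ h3 w'

end Pool.Agent.U864.DL
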