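import Pool.Agent.U864.DL.LangDef

/-!
# Languages and the digits of a natural number: the definitions
-/

set_option autoImplicit false

namespace Pool.Agent.U864.DL

/-- the list of the digits in base `q` of the natural number `Y` at the places
`i, i - 1, …, i - w + 1` (the place `j` is the place of `q ^ j`) -/
def blockDown (q i w Y : ℕ) : List ℕ := (List.range w).map fun k => Y / q ^ (i - k) % q

/-- The law of the longest word of the language `𝓛` (of growth rate `θ`) for the blocks of digits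
of `Y` at the `N` places `h - N, …, h - 1`, for all `N ≥ N₀` with `lo ≤ h - N` at the same time: the block
contains a word in `𝓛` of every length `w ≥ w₀` up to `(1 - ε) log N / log (q / θ)` and no word in `𝓛` of
length `w ≥ (1 + ε) log N / log (q / θ)`; here `w` is at most `C log N` if `𝓛` is not closed under
prefixes. -/
def DownLongestWordLaw (q : ℕ) (𝓛 : Set (List ℕ)) (θ C ε : ℝ) (w₀ N₀ lo h : ℕ) (Y : ℕ) : Prop :=
  ∀ N : ℕ, N₀ ≤ N → lo + N ≤ h →
    (∀ w : ℕ, w₀ ≤ w → (w : ℝ) ≤ (1 - ε) * (Real.log N / Real.log (q / θ)) →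
      ∃ i, i < h ∧ h + w ≤ i + 1 + N ∧ blockDown q i w Y ∈ 𝓛) ∧
    (∀ w : ℕ, (1 + ε) * (Real.log N / Real.log (q / θ)) ≤ w →
      ((w : ℝ) ≤ C * Real.log N ∨ PrefixClosed 𝓛) →
      ∀ i, i < h → h + w ≤ i + 1 + N → blockDown q i w Y ∉ 𝓛)

end Pool.Agent.U864.DL
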