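import Pool.Agent.U864.DL.Lang3
import Pool.Agent.U864.DL.LangIntDef
import Pool.Agent.N639.FH.FinQ

/-!
# The longest words of a language in the digits of finite families of natural numbers
-/

set_option autoImplicit false

namespace Pool.Agent.U864.DL

open Finset Real MeasureTheory Filter Topology
open Pool.Agent.Y933.KD Pool.Agent.N639.FS Pool.Agent.N639.FG Pool.Agent.N639.FH
open Pool.Agent.Y933.KE (smear)

lemma block_down {q : ℕ} (hq : 1 ≤ q) {lo h n w : ℕ} (h1 : lo + (n + w) ≤ h) (Y : ℕ)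
    {θ : ℝ} (hθ : θ ∈ Set.Ico (0 : ℝ) 1) :
    block q n w ((((Y / q ^ lo : ℕ) : ℝ) + θ) / (q : ℝ) ^ (h - lo)) =
      blockDown q (h - 1 - n) w Y := by
  rw [block_eq]
  unfold blockDown
  refine List.map_congr_left fun k hk => ?_
  rw [List.mem_range] at hk
  have h7 := wo_eq (q := q) hq (w := 1) (i := h - 1 - n - k) (lo := lo) (hi := h)
    (by omega) (by omega) Y hθ
  rw [show h - 1 - (h - 1 - n - k) = n + k by omega] at h7
  rw [digit_eq, h7]
  unfold wo
  rw [Nat.add_sub_cancel, pow_one]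

open Classical in
theorem down_longest_word {q : ℕ} (hq : 2 ≤ q) {Λ : ℕ → ℝ} {S : ℕ → Set (Measure ℝ)}
    (hT : TG q (fun M => 2 * Λ M) S) (𝓛 : Set (List ℕ)) {θ : ℝ} (hθ : 0 < θ) (hθq : θ < q)
    (hg : GrowthRate q 𝓛 θ) (C : ℝ) {ε : ℝ} (hε : 0 < ε) : ∃ w0 N0 : ℕ, ∀ᶠ M : ℕ in atTop,
      ∀ (ι : Type) (T : Finset ι) (Y : ι → ℕ) (lo h : ℕ), (h : ℝ) ≤ Λ M →
      smear T (fun m => Y m / q ^ lo) q (h - lo) ∈ S M →
      ((T.filter fun m => ¬ DownLongestWordLaw q 𝓛 θ C ε w0 N0 lo h (Y m)).card : ℝ) ≤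
        ε * T.card := by
  have hqp : (0 : ℝ) < q := by
    have : 0 < q := by omega
    exact_mod_cast this
  set g : ℝ := log (q / θ) with hgdef
  have hg0 : 0 < g := Real.log_pos (by rw [one_lt_div hθ]; exact hθq)
  set ε1 : ℝ := min ε 1 / 2 with hε1
  have hm0 : 0 < min ε 1 := lt_min hε one_pos
  have hm1 : min ε 1 ≤ 1 := min_le_right _ _
  have hm2 : min ε 1 ≤ ε := min_le_left _ _
  have e1 : 0 < ε1 := by positivity
  have e2 : 2 * ε1 ≤ ε := by rw [hε1]; linarith
  have e3 : ε1 ≤ 1 / 2 := by rw [hε1]; linarith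
  obtain ⟨w1, N1, h0⟩ := longest_word hq hT 𝓛 hθ hθq hg C e1
  have hlogN : Tendsto (fun N : ℕ => log (N : ℝ)) atTop atTop :=
    Real.tendsto_log_atTop.comp tendsto_natCast_atTop_atTop
  obtain ⟨N2, hN2⟩ := eventually_atTop.1 ((ev_log (1 / g) one_pos).and
    (hlogN.eventually_ge_atTop (log 2 / (ε1 / 2))))
  refine ⟨max w1 1, max (2 * N1 + 1) (max N2 2), ?_⟩
  filter_upwards [h0, hT.1.eventually_ge_atTop 0] with M hM hΛ0 ι T Y lo h hL hP
  obtain ⟨V, hV, hV1, hV2⟩ := hM _ hP 0 (by
    have : (0 : ℝ) ≤ h := Nat.cast_nonneg h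
    push_cast
    linarith)
  refine cnt_smear hV (hV1.trans (by linarith)) fun m _ t ht hx N hN hNh => ?_
  have hNN1 : 2 * N1 + 1 ≤ N := le_of_max_le_left hN
  obtain ⟨n1, n2⟩ := hN2 N (le_of_max_le_left (le_of_max_le_right hN))
  have hN2' : 2 ≤ N := le_of_max_le_right (le_of_max_le_right hN)
  have hNR : (2 : ℝ) ≤ N := by exact_mod_cast hN2'
  have hlN : 0 < log (N : ℝ) := Real.log_pos (by linarith)
  have hNL : (N : ℝ) ≤ Λ M := by
    have : (N : ℝ) ≤ h := by exact_mod_cast (by omega : N ≤ h)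
    linarith
  rw [Real.rpow_one] at n1
  rw [div_le_iff₀ (by positivity)] at n2
  constructor
  · intro w hw0 hw
    have hw1 : 1 ≤ w := (le_max_right _ _).trans hw0
    have hw1R : (1 : ℝ) ≤ w := by exact_mod_cast hw1
    have hlg : 0 ≤ log (N : ℝ) / g := by positivity
    have hwK : (w : ℝ) ≤ 1 / g * log N := by
      have h3 : (1 - ε) * (log (N : ℝ) / g) ≤ 1 * (log N / g) := by gcongr; linarith
      calc (w : ℝ) ≤ 1 * (log N / g) := hw.trans h3
        _ = 1 / g * log N := by ring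
    have hwN : 2 * w ≤ N := by
      have : (2 * w : ℝ) ≤ N := by linarith
      exact_mod_cast this
    set N' : ℕ := N + 1 - w with hN'
    have hN'1 : N ≤ 2 * N' := by omega
    have hN'0 : 0 < N' := by omega
    have hN'R : (0 : ℝ) < N' := by exact_mod_cast hN'0
    have h8 : (N' : ℝ) ≤ Λ M := by
      have : (N' : ℝ) ≤ N := by exact_mod_cast (by omega : N' ≤ N)
      linarith
    have h9 : log (N : ℝ) - log 2 ≤ log N' := by
      rw [← Real.log_div (by linarith) (by norm_num)]
      apply Real.log_le_log (by linarith)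
      rw [div_le_iff₀ (by norm_num)]
      have : (N : ℝ) ≤ 2 * N' := by exact_mod_cast hN'1
      linarith
    have h11 : (1 - ε1 / 2) * log N ≤ log N' := by linarith
    have h10 : (w : ℝ) ≤ (1 - ε1) * (log N' / g) := by
      refine hw.trans ?_
      rw [← mul_div_assoc, ← mul_div_assoc]
      refine div_le_div_of_nonneg_right ?_ hg0.le
      calc (1 - ε) * log N ≤ (1 - ε1) * ((1 - ε1 / 2) * log N) := by
            rw [← mul_assoc]
            apply mul_le_mul_of_nonneg_right _ hlN.le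
            nlinarith
        _ ≤ (1 - ε1) * log N' := by
            apply mul_le_mul_of_nonneg_left h11
            linarith
    obtain ⟨n, -, k2, k3⟩ := (hV2 _ hx N' (by omega) h8).1 w ((le_max_left _ _).trans hw0) h10
    refine ⟨h - 1 - n, by omega, by omega, ?_⟩
    rw [← block_down (q := q) (by omega) (lo := lo) (h := h) (n := n) (w := w) (by omega) (Y m) ht]
    exact k3
  · intro w hw hor i hi hiN hmem
    have hw' : (1 + ε1) * (log (N : ℝ) / g) ≤ w := by
      refine le_trans ?_ hw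
      have : 0 ≤ log (N : ℝ) / g := by positivity
      gcongr
      linarith
    have hw1 : 1 ≤ w := by
      rcases Nat.eq_zero_or_pos w with h0 | h0
      · exfalso
        rw [h0, Nat.cast_zero] at hw'
        have : 0 < (1 + ε1) * (log (N : ℝ) / g) := by positivity
        linarith
      · exact h0
    refine (hV2 _ hx N (by omega) hNL).2 w hw' hor (h - 1 - i) (by omega) (by omega) ?_
    rw [block_down (q := q) (by omega) (lo := lo) (h := h) (n := h - 1 - i) (w := w) (by omega)
      (Y m) ht, show h - 1 - (h - 1 - i) = i by omega]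
    exact hmem

end Pool.Agent.U864.DL
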