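import Pool.Agent.U864.DL.LangDef

/-!
# Languages of matrices and the digits of a tuple of real numbers: the definitions
-/

set_option autoImplicit false

namespace Pool.Agent.U864.DL

variable {r : ℕ}

/-- the digit matrix at the place `n`: its `j`-th row is the list of the `w` digits in base `b j` of
`x j` which follow the first `s j + n` digits after the point -/
noncomputable def blocks (b s : Fin r → ℕ) (n w : ℕ) (x : Fin r → ℝ) : Fin r → List ℕ :=
  fun j => block (b j) (s j + n) w (x j)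

/-- the matrices of width `w` in the set `𝓜`, with digits in base `b j` in the row `j` -/
def matricesOf (b : Fin r → ℕ) (𝓜 : Set (Fin r → List ℕ)) (w : ℕ) : Set (Fin r → List ℕ) :=
  {D | D ∈ 𝓜 ∧ ∀ j, (D j).length = w ∧ ∀ a ∈ D j, a < b j}

/-- `θ` is the growth rate of the set `𝓜` of matrices -/
def MatrixGrowthRate (b : Fin r → ℕ) (𝓜 : Set (Fin r → List ℕ)) (θ : ℝ) : Prop :=
  Filter.Tendsto (fun w : ℕ => ((matricesOf b 𝓜 w).ncard : ℝ) ^ (1 / (w : ℝ))) Filter.atTop (nhds θ)

/-- the first columns of the matrices in `𝓜` form a matrix in `𝓜` -/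
def ColumnClosed (𝓜 : Set (Fin r → List ℕ)) : Prop := ∀ D ∈ 𝓜, ∀ k : ℕ, (fun j => (D j).take k) ∈ 𝓜

/-- The law of the widest matrix of the set `𝓜` (of growth rate `θ`) for the tuple `x` and the
windows which consist of the `N` places `0, …, N - 1` after the places `s j`, for all `N` with
`N₀ ≤ N ≤ L` at the same time: a matrix in `𝓜` of every width `w ≥ w₀` up to `(1 - ε) log N / h` starts
in the window, and no matrix in `𝓜` of width `w ≥ (1 + ε) log N / h` starts there, where
`h = log (b_1 ⋯ b_r / θ)`; here `w` is at most `C log N` if `𝓜` is not closed under passing to the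
first columns. -/
def WidestMatrixLaw (b : Fin r → ℕ) (𝓜 : Set (Fin r → List ℕ)) (θ C ε : ℝ) (w₀ N₀ : ℕ)
    (s : Fin r → ℕ) (L : ℝ) (x : Fin r → ℝ) : Prop :=
  ∀ N : ℕ, N₀ ≤ N → (N : ℝ) ≤ L →
    (∀ w : ℕ, w₀ ≤ w → (w : ℝ) ≤ (1 - ε) * (Real.log N / Real.log ((∏ j, b j : ℕ) / θ)) →
      ∃ n < N, blocks b s n w x ∈ 𝓜) ∧
    (∀ w : ℕ, (1 + ε) * (Real.log N / Real.log ((∏ j, b j : ℕ) / θ)) ≤ w →
      ((w : ℝ) ≤ C * Real.log N ∨ ColumnClosed 𝓜) → ∀ n < N, blocks b s n w x ∉ 𝓜)

end Pool.Agent.U864.DL
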