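import Pool.Agent.U864.DL.Basic
import Pool.Agent.N639.FH.FinM

/-!
# Runs of columns and repeated digit matrices in the multiples of tuples of algebraic numbers
-/

set_option autoImplicit false

namespace Pool.Agent.U864.DL

open Finset Real MeasureTheory Filter Topology
open Pool.Agent.Y933.KD (wd cnd Tb Leb measurable_wd wd_lt box card_box)
open Pool.Agent.N639.FS Pool.Agent.N639.FG Pool.Agent.N639.FH
open Pool.Agent.Y951.TU (mix mix_inj mix_lt tw Psi SX comb wd_Psi tw_lt)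

variable {r d : ℕ}

/-- the digits of the numbers `x j` at the places `s j + n` -/
noncomputable def column (b s : Fin r → ℕ) (n : ℕ) (x : Fin r → ℝ) : Fin r → ℕ :=
  fun j => digit (b j) (s j + n) (x j)

/-- the law of the longest runs of a column -/
def ColLaw (b s : Fin r → ℕ) (N₀ : ℕ) (L ε : ℝ) (x : Fin r → ℝ) : Prop :=
  ∀ (c : Fin r → ℕ) (N : ℕ), (∀ j, c j < b j) → N₀ ≤ N → (N : ℝ) ≤ L →
    (∀ w : ℕ, (w : ℝ) ≤ (1 - ε) * logb (∏ j, b j : ℕ) N →
      ∃ n < N, ∀ i < w, column b s (n + i) x = c) ∧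
    (∀ w n : ℕ, n < N → (∀ i < w, column b s (n + i) x = c) →
      (w : ℝ) ≤ (1 + ε) * logb (∏ j, b j : ℕ) N)

/-- the law of the longest repeated matrix -/
def MatLaw (b s : Fin r → ℕ) (N₀ : ℕ) (L ε : ℝ) (x : Fin r → ℝ) : Prop :=
  ∀ N : ℕ, N₀ ≤ N → (N : ℝ) ≤ L →
    (∀ w : ℕ, (w : ℝ) ≤ (2 - ε) * logb (∏ j, b j : ℕ) N →
      ∃ i j, i < j ∧ j < N ∧ ∀ k < w, column b s (i + k) x = column b s (j + k) x) ∧
    (∀ w i j : ℕ, i < j → j < N → (∀ k < w, column b s (i + k) x = column b s (j + k) x) →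
      (w : ℝ) ≤ (2 + ε) * logb (∏ j, b j : ℕ) N)

lemma col_lt {b : Fin r → ℕ} (hb : ∀ j, 1 ≤ b j) (s : Fin r → ℕ) (n : ℕ) (x : Fin r → ℝ) (j : Fin r) :
    column b s n x j < b j ^ 1 := by
  unfold column
  rw [digit_eq]
  exact wd_lt (hb j) _ _ _

/-- the digits of the mixed number are the columns -/
lemma digit_Psi {b : Fin r → ℕ} (hb : ∀ j, 1 ≤ b j) {n J : ℕ} (h : n + 1 ≤ J) (s : Fin r → ℕ)
    (x : Fin r → ℝ) : digit (∏ j, b j) n (Psi b J s x) = mix b 1 (column b s n x) := by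
  rw [digit_eq, wd_Psi hb h]
  congr 1
  funext j
  unfold column tw
  rw [digit_eq]

lemma mix_col {b : Fin r → ℕ} (hb : ∀ j, 1 ≤ b j) {c c' : Fin r → ℕ} (hc : ∀ j, c j < b j ^ 1)
    (hc' : ∀ j, c' j < b j ^ 1) : mix b 1 c = mix b 1 c' ↔ c = c' :=
  ⟨fun h => mix_inj hb 1 _ _ hc hc' h, fun h => by rw [h]⟩

/-- words are short -/
lemma short {A : ℝ} (hA : 0 < A) {B : ℕ} (hB : 2 ≤ B) (K : ℝ) (hK : 0 < K) : ∀ᶠ M : ℕ in atTop,
    ∀ N : ℕ, 1 ≤ N → (N : ℝ) ≤ A * log M → K * logb B N + 1 ≤ A * log M := by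
  have hlB : 0 < log (B : ℝ) := Real.log_pos (by exact_mod_cast hB)
  have h1 : Tendsto (fun M : ℕ => A * log (M : ℝ)) atTop atTop :=
    (Real.tendsto_log_atTop.comp tendsto_natCast_atTop_atTop).const_mul_atTop hA
  have h2 : ∀ᶠ t : ℝ in atTop, K / log B * log t + 1 ≤ t := by
    have h3 := Real.isLittleO_log_id_atTop.bound (show 0 < log B / (2 * K) by positivity)
    filter_upwards [h3, eventually_ge_atTop 2] with t h4 h5
    simp only [id, Real.norm_eq_abs] at h4
    rw [abs_of_pos (by linarith : 0 < t), abs_of_nonneg (Real.log_nonneg (by linarith))] at h4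
    have h6 : K / log B * log t ≤ K / log B * (log B / (2 * K) * t) := by gcongr
    have h7 : K / log B * (log B / (2 * K) * t) = t / 2 := by field_simp
    linarith
  filter_upwards [h1.eventually h2] with M hM N hN hNA
  have hN1 : (1 : ℝ) ≤ N := by exact_mod_cast hN
  refine le_trans ?_ hM
  have h8 : log (N : ℝ) ≤ log (A * log M) := Real.log_le_log (by linarith) hNA
  rw [← Real.log_div_log]
  have h9 : K * (log N / log B) = K / log B * log N := by ring
  rw [h9]
  gcongr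

open Classical in
/-- **the longest runs of a column** -/
theorem mat5 (hr : 1 ≤ r) (Ω : Fin r → Fin d → ℝ) (halg : ∀ j t, IsAlgebraic ℚ (Ω j t))
    (hind : ∀ c : Fin r → ℤ, c ≠ 0 → ∃ t, Irrational (∑ j, c j * Ω j t)) {b : Fin r → ℕ}
    (hb : ∀ j, 2 ≤ b j) {A : ℝ} (hA : 0 < A) {ε : ℝ} (hε : 0 < ε) : ∃ N0 : ℕ,
    ∀ᶠ M : ℕ in atTop, ∀ (y : Fin r → ℝ) (s : Fin r → ℕ), (∀ j, (s j : ℝ) ≤ A * log M) →
      (((box d M).filter fun m => ¬ ColLaw b s N0 (A * log M) ε (comb Ω y m)).card : ℝ) ≤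
        ε * (M : ℝ) ^ d := by
  have hb1 : ∀ j, 1 ≤ b j := fun j => by have := hb j; omega
  have hB := two_le_prod hr hb
  have hT := tg_SX hr Ω halg hind hb hA
  obtain ⟨N0, hN0⟩ := run_law hB hT hε
  refine ⟨max N0 1, ?_⟩
  filter_upwards [hN0, eventually_ge_atTop 1, short hA hB (1 + ε) (by linarith)]
    with M hM hM1 hsh y s hs
  have hlM : 0 ≤ log (M : ℝ) := Real.log_natCast_nonneg M
  have hAM : 0 ≤ A * log (M : ℝ) := by positivity
  obtain ⟨U, hU, hU1, hU2⟩ := hM _ (mem_SX Ω b y s hs) 0 (by simpa using hAM)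
  refine le_trans ?_ (cnt_box hM1 Ω b (JJ A M) y s hU hU1)
  have hsub : ((box d M).filter fun m => ¬ ColLaw b s (max N0 1) (A * log M) ε (comb Ω y m)) ⊆
      (box d M).filter fun m => Psi b (JJ A M) s (comb Ω y m) ∈ U := by
    intro m hm
    rw [mem_filter] at hm ⊢
    refine ⟨hm.1, ?_⟩
    by_contra hcon
    apply hm.2
    intro c N hc hN hNL
    have hN0 : N0 ≤ N := (le_max_left _ _).trans hN
    have hN1 : 1 ≤ N := (le_max_right _ _).trans hN
    have hc1 : ∀ j, c j < b j ^ 1 := fun j => by simpa using hc j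
    have hC : mix b 1 c < ∏ j, b j := by simpa using mix_lt hb1 1 c
    obtain ⟨g1, g2⟩ := hU2 _ hcon (mix b 1 c) N hC hN0 hNL
    have hlb : 0 ≤ logb (∏ j, b j : ℕ) (N : ℝ) :=
      Real.logb_nonneg (by exact_mod_cast (by omega : 1 < ∏ j, b j)) (by exact_mod_cast hN1)
    have hsN := hsh N hN1 hNL
    constructor
    · intro w hw
      obtain ⟨n, h1, h2, h3⟩ := g1 w hw
      have hwA : (w : ℝ) ≤ A * log M := by
        have : (1 - ε) * logb (∏ j, b j : ℕ) (N : ℝ) ≤ (1 + ε) * logb (∏ j, b j : ℕ) (N : ℝ) := by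
          gcongr
          linarith
        linarith
      have hnN : n < N := by omega
      refine ⟨n, hnN, fun i hi => ?_⟩
      have h4 := h3 i hi
      have h5 := le_JJ hlM hnN hNL hwA
      rw [digit_Psi hb1 (by omega), mix_col hb1 (col_lt hb1 _ _ _) hc1] at h4
      exact h4
    · intro w n hn hw
      by_contra hcon2
      rw [not_le] at hcon2
      set w' : ℕ := ⌊(1 + ε) * logb (∏ j, b j : ℕ) (N : ℝ)⌋₊ + 1 with hw'
      have h0 : 0 ≤ (1 + ε) * logb (∏ j, b j : ℕ) (N : ℝ) := by positivity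
      have h6 : w' ≤ w := by
        rw [hw', Nat.succ_le_iff]
        exact (Nat.floor_lt h0).2 hcon2
      have h7 : (w' : ℝ) ≤ A * log M := by
        rw [hw', Nat.cast_add, Nat.cast_one]
        have := Nat.floor_le h0
        linarith
      have h8 := le_JJ hlM hn hNL h7
      have h9 := g2 w' n (by omega) (by omega) (fun i hi => by
        rw [digit_Psi hb1 (by omega), mix_col hb1 (col_lt hb1 _ _ _) hc1]
        exact hw i (by omega))
      have h10 : (1 + ε) * logb (∏ j, b j : ℕ) (N : ℝ) < w' := by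
        rw [hw', Nat.cast_add, Nat.cast_one]
        exact Nat.lt_floor_add_one _
      linarith
  exact_mod_cast card_le_card hsub

open Classical in
/-- **the longest repeated matrix** -/
theorem mat2 (hr : 1 ≤ r) (Ω : Fin r → Fin d → ℝ) (halg : ∀ j t, IsAlgebraic ℚ (Ω j t))
    (hind : ∀ c : Fin r → ℤ, c ≠ 0 → ∃ t, Irrational (∑ j, c j * Ω j t)) {b : Fin r → ℕ}
    (hb : ∀ j, 2 ≤ b j) {A : ℝ} (hA : 0 < A) {ε : ℝ} (hε : 0 < ε) : ∃ N0 : ℕ,
    ∀ᶠ M : ℕ in atTop, ∀ (y : Fin r → ℝ) (s : Fin r → ℕ), (∀ j, (s j : ℝ) ≤ A * log M) →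
      (((box d M).filter fun m => ¬ MatLaw b s N0 (A * log M) ε (comb Ω y m)).card : ℝ) ≤
        ε * (M : ℝ) ^ d := by
  have hb1 : ∀ j, 1 ≤ b j := fun j => by have := hb j; omega
  have hB := two_le_prod hr hb
  have hT := tg_SX hr Ω halg hind hb hA
  obtain ⟨N0, hN0⟩ := rep_law hB hT hε
  refine ⟨max N0 1, ?_⟩
  filter_upwards [hN0, eventually_ge_atTop 1, short hA hB (2 + ε) (by linarith)]
    with M hM hM1 hsh y s hs
  have hlM : 0 ≤ log (M : ℝ) := Real.log_natCast_nonneg M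
  have hAM : 0 ≤ A * log (M : ℝ) := by positivity
  obtain ⟨U, hU, hU1, hU2⟩ := hM _ (mem_SX Ω b y s hs) 0 (by simpa using hAM)
  refine le_trans ?_ (cnt_box hM1 Ω b (JJ A M) y s hU hU1)
  have hsub : ((box d M).filter fun m => ¬ MatLaw b s (max N0 1) (A * log M) ε (comb Ω y m)) ⊆
      (box d M).filter fun m => Psi b (JJ A M) s (comb Ω y m) ∈ U := by
    intro m hm
    rw [mem_filter] at hm ⊢
    refine ⟨hm.1, ?_⟩
    by_contra hcon
    apply hm.2
    intro N hN hNL
    have hN0 : N0 ≤ N := (le_max_left _ _).trans hN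
    have hN1 : 1 ≤ N := (le_max_right _ _).trans hN
    obtain ⟨g1, g2⟩ := hU2 _ hcon N hN0 hNL
    have hlb : 0 ≤ logb (∏ j, b j : ℕ) (N : ℝ) :=
      Real.logb_nonneg (by exact_mod_cast (by omega : 1 < ∏ j, b j)) (by exact_mod_cast hN1)
    have hsN := hsh N hN1 hNL
    constructor
    · intro w hw
      obtain ⟨i, j, h1, h2, h3, h4⟩ := g1 w hw
      have hwA : (w : ℝ) ≤ A * log M := by
        have : (2 - ε) * logb (∏ j, b j : ℕ) (N : ℝ) ≤ (2 + ε) * logb (∏ j, b j : ℕ) (N : ℝ) := by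
          gcongr
          linarith
        linarith
      have hjN : j < N := by omega
      refine ⟨i, j, h2, hjN, fun k hk => ?_⟩
      have h5 := h4 k hk
      have h6 := le_JJ hlM hjN hNL hwA
      rw [digit_Psi hb1 (by omega), digit_Psi hb1 (by omega),
        mix_col hb1 (col_lt hb1 _ _ _) (col_lt hb1 _ _ _)] at h5
      exact h5
    · intro w i j hij hj hw
      by_contra hcon2
      rw [not_le] at hcon2
      set w' : ℕ := ⌊(2 + ε) * logb (∏ j, b j : ℕ) (N : ℝ)⌋₊ + 1 with hw'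
      have h0 : 0 ≤ (2 + ε) * logb (∏ j, b j : ℕ) (N : ℝ) := by positivity
      have h6 : w' ≤ w := by
        rw [hw', Nat.succ_le_iff]
        exact (Nat.floor_lt h0).2 hcon2
      have h7 : (w' : ℝ) ≤ A * log M := by
        rw [hw', Nat.cast_add, Nat.cast_one]
        have := Nat.floor_le h0
        linarith
      have h8 := le_JJ hlM hj hNL h7
      have h9 := g2 w' ⟨i, j, by omega, hij, by omega, fun k hk => by
        rw [digit_Psi hb1 (by omega), digit_Psi hb1 (by omega),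
          mix_col hb1 (col_lt hb1 _ _ _) (col_lt hb1 _ _ _)]
        exact hw k (by omega)⟩
      have h10 : (2 + ε) * logb (∏ j, b j : ℕ) (N : ℝ) < w' := by
        rw [hw', Nat.cast_add, Nat.cast_one]
        exact Nat.lt_floor_add_one _
      linarith
  exact_mod_cast card_le_card hsub

end Pool.Agent.U864.DL
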