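import Pool.Agent.U864.DL.Lang3
import Pool.Agent.U864.DL.Mat
import Pool.Agent.U864.DL.LangMatDef

/-!
# The widest matrices of a set of matrices in the multiples of tuples of algebraic numbers
-/

set_option autoImplicit false

namespace Pool.Agent.U864.DL

open Finset Real MeasureTheory Filter Topology
open Pool.Agent.Y933.KD (wd cnd Tb Leb measurable_wd wd_lt box card_box)
open Pool.Agent.N639.FS Pool.Agent.N639.FG Pool.Agent.N639.FH
open Pool.Agent.Y951.TU (mix mix_inj mix_lt tw Psi SX comb wd_Psi tw_lt)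

variable {r d : ℕ}

/-- the code of a matrix -/
noncomputable def mcode (b : Fin r → ℕ) (w : ℕ) (D : Fin r → List ℕ) : ℕ :=
  mix b w (fun j => code (b j) (D j))

lemma mcode_inj {b : Fin r → ℕ} (hb : ∀ j, 2 ≤ b j) {w : ℕ} {D D' : Fin r → List ℕ}
    (hD : ∀ j, (D j).length = w ∧ ∀ a ∈ D j, a < b j)
    (hD' : ∀ j, (D' j).length = w ∧ ∀ a ∈ D' j, a < b j) (h : mcode b w D = mcode b w D') :
    D = D' := by
  have h1 := mix_inj (fun j => by have := hb j; omega) w _ _
    (fun j => by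
      have := code_lt (hb j) (hD j).2
      rwa [(hD j).1] at this)
    (fun j => by
      have := code_lt (hb j) (hD' j).2
      rwa [(hD' j).1] at this) h
  funext j
  exact code_inj (hb j) (hD j).2 (hD' j).2 ((hD j).1.trans (hD' j).1.symm) (congrFun h1 j)

open Classical in
/-- the codes of the matrices of width `w` -/
noncomputable def mcodes (b : Fin r → ℕ) (𝓜 : Set (Fin r → List ℕ)) (w : ℕ) : Finset ℕ :=
  (range ((∏ j, b j) ^ w)).filter fun c => ∃ D ∈ matricesOf b 𝓜 w, mcode b w D = c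

open Classical in
lemma mcodes_sub (b : Fin r → ℕ) (𝓜 : Set (Fin r → List ℕ)) (w : ℕ) :
    mcodes b 𝓜 w ⊆ range ((∏ j, b j) ^ w) := Finset.filter_subset _ _

lemma card_mcodes {b : Fin r → ℕ} (hb : ∀ j, 2 ≤ b j) (𝓜 : Set (Fin r → List ℕ)) (w : ℕ) :
    (mcodes b 𝓜 w).card = (matricesOf b 𝓜 w).ncard := by
  have h1 : ((mcodes b 𝓜 w : Finset ℕ) : Set ℕ) = mcode b w '' matricesOf b 𝓜 w := by
    ext c
    simp only [mcodes, Finset.coe_filter, mem_range, Set.mem_ofPred_eq, Set.mem_image]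
    constructor
    · rintro ⟨-, l, hl, h⟩
      exact ⟨l, hl, h⟩
    · rintro ⟨l, hl, rfl⟩
      exact ⟨mix_lt (fun j => by have := hb j; omega) w _, l, hl, rfl⟩
  have h2 : Set.InjOn (mcode b w) (matricesOf b 𝓜 w) := fun l hl l' hl' h =>
    mcode_inj hb hl.2 hl'.2 h
  rw [← Set.ncard_coe_finset, h1, h2.ncard_image]

open Classical in
lemma wd_mem_mcodes {b : Fin r → ℕ} (hb : ∀ j, 2 ≤ b j) (𝓜 : Set (Fin r → List ℕ)) {n w J : ℕ}
    (hJ : n + w ≤ J) (s : Fin r → ℕ) (x : Fin r → ℝ) :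
    wd (∏ j, b j) w n (Psi b J s x) ∈ mcodes b 𝓜 w ↔ blocks b s n w x ∈ 𝓜 := by
  have hb1 : ∀ j, 1 ≤ b j := fun j => by have := hb j; omega
  have h0 : wd (∏ j, b j) w n (Psi b J s x) = mcode b w (blocks b s n w x) := by
    rw [wd_Psi hb1 hJ]
    unfold mcode blocks tw
    congr 1
    funext j
    rw [wd_eq_code]
  have hmem : ∀ j, (blocks b s n w x j).length = w ∧ ∀ a ∈ blocks b s n w x j, a < b j :=
    fun j => ⟨length_block _ _ _ _, block_lt (hb1 j) _ _ _⟩
  unfold mcodes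
  rw [mem_filter, mem_range, h0]
  constructor
  · rintro ⟨-, l, hl, h⟩
    rw [← mcode_inj hb hl.2 hmem h]
    exact hl.1
  · intro h
    exact ⟨mix_lt hb1 w _, _, ⟨h, hmem⟩, rfl⟩

open Classical in
/-- **the widest matrices** -/
theorem widest_matrix (hr : 1 ≤ r) (Ω : Fin r → Fin d → ℝ) (halg : ∀ j t, IsAlgebraic ℚ (Ω j t))
    (hind : ∀ c : Fin r → ℤ, c ≠ 0 → ∃ t, Irrational (∑ j, c j * Ω j t)) {b : Fin r → ℕ}
    (hb : ∀ j, 2 ≤ b j) (𝓜 : Set (Fin r → List ℕ)) {θ : ℝ} (hθ : 0 < θ)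
    (hθb : θ < (∏ j, b j : ℕ)) (hg : MatrixGrowthRate b 𝓜 θ) {A : ℝ} (hA : 0 < A) (C : ℝ) {ε : ℝ}
    (hε : 0 < ε) : ∃ w0 N0 : ℕ, ∀ᶠ M : ℕ in atTop, ∀ (y : Fin r → ℝ) (s : Fin r → ℕ),
      (∀ j, (s j : ℝ) ≤ A * log M) →
      (((box d M).filter fun m =>
        ¬ WidestMatrixLaw b 𝓜 θ C ε w0 N0 s (A * log M) (comb Ω y m)).card : ℝ) ≤
          ε * (M : ℝ) ^ d := by
  have hb1 : ∀ j, 1 ≤ b j := fun j => by have := hb j; omega
  have hB := two_le_prod hr hb
  have hBR : (2 : ℝ) ≤ (∏ j, b j : ℕ) := by exact_mod_cast hB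
  have hBp : (0 : ℝ) < (∏ j, b j : ℕ) := by linarith
  have hlB : 0 < log ((∏ j, b j : ℕ) : ℝ) := Real.log_pos (by linarith)
  have hT := tg_SX hr Ω halg hind hb hA
  set h : ℝ := log ((∏ j, b j : ℕ) / θ) with hh
  have hh0 : 0 < h := Real.log_pos (by rw [one_lt_div hθ]; exact hθb)
  have hgr : Tendsto (fun w : ℕ => log ((mcodes b 𝓜 w).card / ((∏ j, b j : ℕ) : ℝ) ^ w) / w) atTop
      (𝓝 (-h)) := by
    simp only [card_mcodes hb]
    exact growth_codes hB hθ hg
  set C' : ℝ := max (max C ((1 + ε) / h + 1)) (1 / h) with hC'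
  have hC'0 : 0 < C' := lt_of_lt_of_le (by positivity) (le_max_right _ _)
  have hCh : 1 / h ≤ C' := le_max_right _ _
  obtain ⟨w0, N0, hN01, hN0⟩ := lang_win hB hT (mcodes b 𝓜) (mcodes_sub b 𝓜) hh0 hgr C' hε
  refine ⟨w0, max N0 3, ?_⟩
  filter_upwards [hN0, eventually_ge_atTop 1,
    short hA hB (C' * log (∏ j, b j : ℕ)) (mul_pos hC'0 hlB)] with M hM hM1 hsh y s hs
  have hlM : 0 ≤ log (M : ℝ) := Real.log_natCast_nonneg M
  have hAM : 0 ≤ A * log (M : ℝ) := by positivity
  obtain ⟨U, hU, hU1, hU2⟩ := hM _ (mem_SX Ω b y s hs) 0 (by simpa using hAM)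
  refine le_trans ?_ (cnt_box hM1 Ω b (JJ A M) y s hU hU1)
  have hsub : ((box d M).filter fun m =>
        ¬ WidestMatrixLaw b 𝓜 θ C ε w0 (max N0 3) s (A * log M) (comb Ω y m)) ⊆
      (box d M).filter fun m => Psi b (JJ A M) s (comb Ω y m) ∈ U := by
    intro m hm
    rw [mem_filter] at hm ⊢
    refine ⟨hm.1, ?_⟩
    by_contra hcon
    apply hm.2
    intro N hN hNL
    obtain ⟨g1, g2⟩ := hU2 _ hcon N ((le_max_left _ _).trans hN) hNL
    have hN3' : 3 ≤ N := (le_max_right _ _).trans hN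
    have hN3 : (3 : ℝ) ≤ N := by exact_mod_cast hN3'
    have hlN : 1 ≤ log (N : ℝ) := by
      rw [Real.le_log_iff_exp_le (by linarith)]
      have := Real.exp_one_lt_d9
      linarith
    have hsN := hsh N (by omega) hNL
    have hlen : ∀ w : ℕ, (w : ℝ) ≤ C' * log N → (w : ℝ) ≤ A * log M := by
      intro w hw
      have h1 : C' * log (∏ j, b j : ℕ) * logb (∏ j, b j : ℕ) N = C' * log N := by
        rw [mul_assoc, ← Real.log_div_log, mul_div_cancel₀ _ hlB.ne']
      rw [h1] at hsN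
      linarith
    have key : ∀ w : ℕ, (1 + ε) * (log N / h) ≤ w → (w : ℝ) ≤ C' * log N → ∀ n < N,
        blocks b s n w (comb Ω y m) ∉ 𝓜 := by
      intro w hw hwC n hn h3
      have hw' : (1 + ε) * log N ≤ w * h := by
        rw [← mul_div_assoc, div_le_iff₀ hh0] at hw
        exact hw
      have h4 := g2 w hw' hwC n hn
      rw [zero_add] at h4
      exact h4 ((wd_mem_mcodes hb 𝓜 (le_JJ hlM hn hNL (hlen w hwC)) s _).2 h3)
    constructor
    · intro w hw0 hw
      have hw' : w * h ≤ (1 - ε) * log N := by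
        rw [← mul_div_assoc, le_div_iff₀ hh0] at hw
        exact hw
      obtain ⟨n, hn, h3⟩ := g1 w hw0 hw'
      rw [zero_add] at h3
      have hwC : (w : ℝ) ≤ C' * log N := by
        have h5 : (w : ℝ) ≤ 1 / h * log N := by
          rw [div_mul_eq_mul_div, one_mul, le_div_iff₀ hh0]
          have : 0 ≤ ε * log N := by positivity
          linarith
        exact h5.trans (by gcongr)
      exact ⟨n, hn, (wd_mem_mcodes hb 𝓜 (le_JJ hlM hn hNL (hlen w hwC)) s _).1 h3⟩
    · intro w hw hor n hn h3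
      rcases hor with hC | hpre
      · refine key w hw (hC.trans ?_) n hn h3
        gcongr
        exact (le_max_left _ _).trans (le_max_left _ _)
      · set w' : ℕ := ⌈(1 + ε) * (log N / h)⌉₊ with hw'
        have h0 : 0 ≤ (1 + ε) * (log N / h) := by positivity
        have h4 : w' ≤ w := Nat.ceil_le.2 hw
        have h5 : (w' : ℝ) ≤ C' * log N := by
          have h6 := (Nat.ceil_lt_add_one h0).le
          rw [← hw'] at h6
          refine h6.trans ?_
          have h7 : ((1 + ε) / h + 1) * log N ≤ C' * log N := by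
            gcongr
            exact (le_max_right _ _).trans (le_max_left _ _)
          refine le_trans ?_ h7
          have h8 : (1 + ε) * (log N / h) = (1 + ε) / h * log N := by ring
          rw [h8]
          linarith
        refine key w' (Nat.le_ceil _) h5 n hn ?_
        have h9 := hpre _ h3 w'
        have h10 : (fun j => (blocks b s n w (comb Ω y m) j).take w') =
            blocks b s n w' (comb Ω y m) := by
          funext j
          exact block_take _ _ h4 _
        rwa [h10] at h9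
  exact_mod_cast card_le_card hsub

end Pool.Agent.U864.DL
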