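import Pool.Agent.U864.DL.Mat

/-!
# The complexity law for the digit matrices of multiples of tuples, for all widths
-/

set_option autoImplicit false

namespace Pool.Agent.U864.DL

open Finset Real MeasureTheory Filter Topology
open Pool.Agent.Y933.KD (wd wd_lt box card_box)
open Pool.Agent.N639.FS Pool.Agent.N639.FG Pool.Agent.N639.FH
open Pool.Agent.Y951.TU (comb)

variable {r d : ℕ}

/-- the digit matrix of width `w` at the place `i` -/
noncomputable def mtx (b s : Fin r → ℕ) (w i : ℕ) (x : Fin r → ℝ) : Fin r → ℕ :=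
  fun j => wd (b j) w (s j + i) (x j)

lemma mtx_eq_iff {b : Fin r → ℕ} (hb : ∀ j, 1 ≤ b j) (s : Fin r → ℕ) (w i i' : ℕ)
    (x : Fin r → ℝ) : mtx b s w i x = mtx b s w i' x ↔
      ∀ k < w, column b s (i + k) x = column b s (i' + k) x := by
  unfold mtx column
  constructor
  · intro h k hk
    funext j
    have := (wd_eq_wd_iff (hb j) w (s j + i) (s j + i') (x j)).1 (congrFun h j) k hk
    rwa [add_assoc, add_assoc] at this
  · intro h
    funext j
    refine (wd_eq_wd_iff (hb j) w (s j + i) (s j + i') (x j)).2 fun k hk => ?_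
    rw [add_assoc, add_assoc]
    exact congrFun (h k hk) j

/-- for words much longer than the window the expected number of different words is the number
of the places -/
lemma expected_long {B : ℝ} (hB : 2 ≤ B) {ε : ℝ} (hε : 0 < ε) : ∀ᶠ t : ℝ in atTop,
    ∀ (w N : ℕ), (N : ℝ) ≤ t → t < w →
      |(N : ℝ) - B ^ w * (1 - exp (-(N / B ^ w)))| ≤ ε * (B ^ w * (1 - exp (-(N / B ^ w)))) := by
  have h1 : Tendsto (fun t : ℝ => t * exp (-(log 2 * t))) atTop (𝓝 0) := by
    have h2 := Real.tendsto_pow_mul_exp_neg_atTop_nhds_zero 1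
    have h3 : Tendsto (fun t : ℝ => log 2 * t) atTop atTop :=
      tendsto_id.const_mul_atTop (Real.log_pos (by norm_num))
    have h4 := (h2.comp h3).const_mul (log 2)⁻¹
    rw [mul_zero] at h4
    refine h4.congr fun t => ?_
    have : log 2 ≠ 0 := (Real.log_pos (by norm_num)).ne'
    simp only [Function.comp, pow_one]
    field_simp
  set δ : ℝ := min 1 ε with hδ
  have hδ0 : 0 < δ := lt_min one_pos hε
  filter_upwards [h1.eventually_lt_const hδ0] with t ht w N hN hw
  have hBp : (0 : ℝ) < B := by linarith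
  have hP : 0 < B ^ w := pow_pos hBp w
  have hPt : exp (log 2 * t) ≤ B ^ w := by
    have e1 : exp (log 2 * w) = (2 : ℝ) ^ w := by
      rw [mul_comm, Real.exp_nat_mul, Real.exp_log (by norm_num)]
    calc exp (log 2 * t) ≤ exp (log 2 * w) := by
          apply Real.exp_le_exp.2
          have : 0 < log 2 := Real.log_pos (by norm_num)
          nlinarith
      _ = (2 : ℝ) ^ w := e1
      _ ≤ B ^ w := by gcongr
  set u : ℝ := N / B ^ w with hu
  have hu0 : 0 ≤ u := by positivity
  have huδ : u ≤ δ := by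
    have h5 : u ≤ t * exp (-(log 2 * t)) := by
      rw [hu, div_le_iff₀ hP, mul_assoc, Real.exp_neg]
      have h6 : 1 ≤ (exp (log 2 * t))⁻¹ * B ^ w := by
        rw [inv_mul_eq_div, one_le_div (Real.exp_pos _)]
        exact hPt
      have ht0 : 0 ≤ t := le_trans (Nat.cast_nonneg N) hN
      nlinarith
    linarith
  have hu1 : u ≤ 1 := huδ.trans (min_le_left _ _)
  have huε : u ≤ ε := huδ.trans (min_le_right _ _)
  have hNu : (N : ℝ) = B ^ w * u := by
    rw [hu]
    field_simp
  -- the exponential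
  have e1 : 1 - exp (-u) ≤ u := by
    have := Real.add_one_le_exp (-u)
    linarith
  have e2 : u - u ^ 2 / 2 ≤ 1 - exp (-u) := by
    have h7 : exp (-u) ≤ 1 - u + u ^ 2 / 2 := by
      have h8 : 1 - u + u ^ 2 / 2 ≤ 1 - u + u ^ 2 / 2 := le_rfl
      have h9 : (1 + u + u ^ 2 / 2) ≤ exp u := Real.quadratic_le_exp_of_nonneg hu0
      rw [Real.exp_neg, inv_le_comm₀ (Real.exp_pos _) (by nlinarith)]
      refine le_trans ?_ h9
      rw [inv_le_iff_one_le_mul₀ (by nlinarith)]
      nlinarith [sq_nonneg (u ^ 2)]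
    linarith
  rw [hNu, ← mul_sub, abs_mul, abs_of_pos hP, abs_of_nonneg (by linarith)]
  have e3 : u - (1 - exp (-u)) ≤ ε * (1 - exp (-u)) := by
    have h10 : u / 2 ≤ 1 - exp (-u) := by nlinarith
    have h11 : u ^ 2 / 2 ≤ ε * (u / 2) := by nlinarith
    have h12 : ε * (u / 2) ≤ ε * (1 - exp (-u)) := by gcongr
    linarith
  calc B ^ w * (u - (1 - exp (-u))) ≤ B ^ w * (ε * (1 - exp (-u))) := by gcongr
    _ = ε * (B ^ w * (1 - exp (-u))) := by ring

open Classical in
/-- **the number of the different matrices, for all widths** -/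
theorem mat4all (hr : 1 ≤ r) (Ω : Fin r → Fin d → ℝ) (halg : ∀ j t, IsAlgebraic ℚ (Ω j t))
    (hind : ∀ c : Fin r → ℤ, c ≠ 0 → ∃ t, Irrational (∑ j, c j * Ω j t)) {b : Fin r → ℕ}
    (hb : ∀ j, 2 ≤ b j) {A : ℝ} (hA : 0 < A) {ε : ℝ} (hε : 0 < ε) : ∃ N0 : ℕ,
    ∀ᶠ M : ℕ in atTop, ∀ (y : Fin r → ℝ) (s : Fin r → ℕ) (N : ℕ), N0 ≤ N →
      (∀ j, (s j : ℝ) + N ≤ A * log M) →
      (((box d M).filter fun m => ¬ ∀ w : ℕ,
        |(((range N).image fun i => mtx b s w i (comb Ω y m)).card : ℝ) -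
          ((∏ j, b j : ℕ) : ℝ) ^ w * (1 - exp (-(N / ((∏ j, b j : ℕ) : ℝ) ^ w)))| ≤
          ε * (((∏ j, b j : ℕ) : ℝ) ^ w * (1 - exp (-(N / ((∏ j, b j : ℕ) : ℝ) ^ w))))).card : ℝ) ≤
        ε * (M : ℝ) ^ d := by
  have hb1 : ∀ j, 1 ≤ b j := fun j => by have := hb j; omega
  have hB := two_le_prod hr hb
  have hB' : (2 : ℝ) ≤ ((∏ j, b j : ℕ) : ℝ) := by exact_mod_cast hB
  have hε2 : 0 < ε / 2 := by linarith
  obtain ⟨N1, h1⟩ := mat4 hr Ω halg hind hb hA hε2
  obtain ⟨N2, h2⟩ := mat2 hr Ω halg hind hb hA hε2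
  refine ⟨max (max N1 N2) 1, ?_⟩
  have hAt : Tendsto (fun M : ℕ => A * log (M : ℝ)) atTop atTop :=
    (Real.tendsto_log_atTop.comp tendsto_natCast_atTop_atTop).const_mul_atTop hA
  filter_upwards [h1, h2, short hA hB (2 + ε / 2) (by linarith),
    hAt.eventually (expected_long hB' hε)] with M g1 g2 hsh hlong y s N hN hs
  have hN1 : N1 ≤ N := ((le_max_left _ _).trans (le_max_left _ _)).trans hN
  have hN2 : N2 ≤ N := ((le_max_right _ _).trans (le_max_left _ _)).trans hN
  have hN3 : 1 ≤ N := (le_max_right _ _).trans hN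
  have k1 := g1 y s N hN1 hs
  have k2 := g2 y s fun j => by
    have := hs j
    have : (0 : ℝ) ≤ N := Nat.cast_nonneg N
    linarith
  have hNL : (N : ℝ) ≤ A * log M := by
    have := hs ⟨0, hr⟩
    have : (0 : ℝ) ≤ s ⟨0, hr⟩ := Nat.cast_nonneg _
    linarith
  set P1 : (Fin d → ℕ) → Prop := fun m => ∀ w : ℕ, (w : ℝ) ≤ A * log M →
        |(((range N).image fun i => mtx b s w i (comb Ω y m)).card : ℝ) -
          ((∏ j, b j : ℕ) : ℝ) ^ w * (1 - exp (-(N / ((∏ j, b j : ℕ) : ℝ) ^ w)))| ≤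
          ε / 2 * (((∏ j, b j : ℕ) : ℝ) ^ w * (1 - exp (-(N / ((∏ j, b j : ℕ) : ℝ) ^ w)))) with hP1
  set P2 : (Fin d → ℕ) → Prop := fun m => MatLaw b s N2 (A * log M) (ε / 2) (comb Ω y m) with hP2
  have k1' : (((box d M).filter fun m => ¬ P1 m).card : ℝ) ≤ ε / 2 * (M : ℝ) ^ d := k1
  have k2' : (((box d M).filter fun m => ¬ P2 m).card : ℝ) ≤ ε / 2 * (M : ℝ) ^ d := k2
  have hsub : ((box d M).filter fun m => ¬ ∀ w : ℕ,
        |(((range N).image fun i => mtx b s w i (comb Ω y m)).card : ℝ) -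
          ((∏ j, b j : ℕ) : ℝ) ^ w * (1 - exp (-(N / ((∏ j, b j : ℕ) : ℝ) ^ w)))| ≤
          ε * (((∏ j, b j : ℕ) : ℝ) ^ w * (1 - exp (-(N / ((∏ j, b j : ℕ) : ℝ) ^ w))))) ⊆
      ((box d M).filter fun m => ¬ P1 m) ∪ ((box d M).filter fun m => ¬ P2 m) := by
    intro m hm
    rw [mem_filter] at hm
    rw [mem_union, mem_filter, mem_filter]
    by_contra hcon
    rw [not_or] at hcon
    have q1 : P1 m := by
      by_contra h
      exact hcon.1 ⟨hm.1, h⟩
    have q2 : P2 m := by
      by_contra h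
      exact hcon.2 ⟨hm.1, h⟩
    apply hm.2
    intro w
    have hE : 0 ≤ ((∏ j, b j : ℕ) : ℝ) ^ w * (1 - exp (-(N / ((∏ j, b j : ℕ) : ℝ) ^ w))) := by
      refine mul_nonneg (by positivity) ?_
      have : exp (-(N / ((∏ j, b j : ℕ) : ℝ) ^ w)) ≤ 1 := by
        rw [Real.exp_le_one_iff]
        have : 0 ≤ N / ((∏ j, b j : ℕ) : ℝ) ^ w := by positivity
        linarith
      linarith
    rcases le_or_gt (w : ℝ) (A * log M) with hw | hw
    · refine (q1 w hw).trans ?_
      nlinarith
    · have hinj : ((range N).image fun i => mtx b s w i (comb Ω y m)).card = N := by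
        rw [card_image_of_injOn, card_range]
        intro i hi j hj hij
        have hi' : i < N := by simpa using hi
        have hj' : j < N := by simpa using hj
        have hno : ∀ a c : ℕ, a < c → c < N →
            mtx b s w a (comb Ω y m) ≠ mtx b s w c (comb Ω y m) := by
          intro a c hac hc hEq
          have h5 := (q2 N hN2 hNL).2 w a c hac hc ((mtx_eq_iff hb1 s w a c _).1 hEq)
          have h6 := hsh N hN3 hNL
          linarith
        rcases lt_trichotomy i j with h | h | h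
        · exact absurd hij (hno i j h hj')
        · exact h
        · exact absurd hij.symm (hno j i h hi')
      rw [hinj]
      exact hlong w N hNL hw
  calc (((box d M).filter _).card : ℝ) ≤
      ((((box d M).filter fun m => ¬ P1 m) ∪ ((box d M).filter fun m => ¬ P2 m)).card : ℝ) := by
        exact_mod_cast card_le_card hsub
    _ ≤ (((box d M).filter fun m => ¬ P1 m).card : ℝ) + ((box d M).filter fun m => ¬ P2 m).card := by
        exact_mod_cast card_union_le _ _
    _ ≤ ε * (M : ℝ) ^ d := by linarith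

end Pool.Agent.U864.DL
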